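import Pool.Agent.Helper98K9.CP.St

set_option autoImplicit false

/-! # Basic facts (deterministic) -/

namespace Pool.Agent.Helper98K9.CP

open MeasureTheory ProbabilityTheory
open scoped ENNReal NNReal

variable {b : ℕ}

theorem hd_ne (e : Ed) : hd b e ≠ e.1 := by
  intro h
  unfold hd par at h
  split_ifs at h with h1
  · have := congrArg Prod.snd h
    simp at this
  · have := congrArg (fun x : Vx => x.1.1) h
    simp at this

theorem og_adj {ω : Cf} {W : Set Vx} {e : Ed} (he : e ∈ edg b W) (ho : ω e = true) :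
    (og b ω W).Adj e.1 (hd b e) :=
  ⟨(hd_ne e).symm, he.1, he.2, e.2, Or.inl ⟨rfl, ho⟩⟩

theorem Cn.refl (ω : Cf) (W : Set Vx) (x : Vx) : Cn b ω W x x := SimpleGraph.Reachable.refl x

theorem Cn.symm {ω : Cf} {W : Set Vx} {x y : Vx} (h : Cn b ω W x y) : Cn b ω W y x :=
  SimpleGraph.Reachable.symm h

theorem Cn.trans {ω : Cf} {W : Set Vx} {x y z : Vx} (h : Cn b ω W x y) (h' : Cn b ω W y z) :
    Cn b ω W x z := SimpleGraph.Reachable.trans h h'

theorem Cn.edge {ω : Cf} {W : Set Vx} {e : Ed} (he : e ∈ edg b W) (ho : ω e = true) :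
    Cn b ω W e.1 (hd b e) := (og_adj he ho).reachable

/-- monotonicity in the configuration (on the edges inside `W`) and in the region -/
theorem Cn.mono {ω ω' : Cf} {W W' : Set Vx} {x y : Vx} (hW : W ⊆ W')
    (hω : ∀ e ∈ edg b W, ω e = true → ω' e = true) (h : Cn b ω W x y) : Cn b ω' W' x y := by
  refine SimpleGraph.Reachable.mono ?_ h
  rintro u v ⟨h0, h1, h2, c, h3⟩
  refine ⟨h0, hW h1, hW h2, c, ?_⟩
  rcases h3 with ⟨h3, h4⟩ | ⟨h3, h4⟩
  · exact Or.inl ⟨h3, hω _ ⟨h1, by rw [h3]; exact h2⟩ h4⟩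
  · exact Or.inr ⟨h3, hω _ ⟨h2, by rw [h3]; exact h1⟩ h4⟩

theorem Cn.congr {ω ω' : Cf} {W : Set Vx} {x y : Vx}
    (hω : ∀ e ∈ edg b W, ω e = ω' e) : Cn b ω W x y ↔ Cn b ω' W x y :=
  ⟨fun h => h.mono le_rfl fun e he ho => by rw [← hω e he]; exact ho,
    fun h => h.mono le_rfl fun e he ho => by rw [hω e he]; exact ho⟩

theorem dep_Cn (W : Set Vx) (x y : Vx) : Dep (edg b W) {ω : Cf | Cn b ω W x y} :=
  fun _ _ h h' => (Cn.congr h).1 h'

theorem inc_Cn (W : Set Vx) (x y : Vx) : Inc {ω : Cf | Cn b ω W x y} :=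
  fun _ _ h h' => h'.mono le_rfl fun e _ => h e

theorem dep_clInf (W : Set Vx) (x : Vx) : Dep (edg b W) {ω : Cf | (cl b ω W x).Infinite} := by
  intro ω ω' h h'
  have : cl b ω W x = cl b ω' W x := by
    ext y
    exact Cn.congr h
  simpa only [Set.mem_ofPred_eq, ← this] using h'

theorem inc_clInf (W : Set Vx) (x : Vx) : Inc {ω : Cf | (cl b ω W x).Infinite} :=
  fun _ _ h h' => Set.Infinite.mono (fun _ hy => Cn.mono le_rfl (fun e _ => h e) hy) h'

theorem cl_mono {ω ω' : Cf} {W W' : Set Vx} {x : Vx} (hW : W ⊆ W')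
    (hω : ∀ e ∈ edg b W, ω e = true → ω' e = true) : cl b ω W x ⊆ cl b ω' W' x :=
  fun _ hy => Cn.mono hW hω hy

/-- the cluster of a vertex outside `W` is trivial -/
theorem cl_of_not_mem {ω : Cf} {W : Set Vx} {x y : Vx} (hx : x ∉ W) (h : Cn b ω W x y) :
    y = x := by
  obtain ⟨w⟩ := h
  cases w with
  | nil => rfl
  | cons h _ => exact absurd h.2.1 hx

theorem mem_of_Cn {ω : Cf} {W : Set Vx} {x y : Vx} (hx : x ∈ W) (h : Cn b ω W x y) : y ∈ W := by
  by_contra hy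
  have := cl_of_not_mem hy h.symm
  exact hy (this ▸ hx)

theorem mem_of_infinite {ω : Cf} {W : Set Vx} {x : Vx} (h : (cl b ω W x).Infinite) : x ∈ W := by
  by_contra hx
  exact h ((Set.finite_singleton x).subset fun y hy => cl_of_not_mem hx hy)

/-! ## symmetries -/

/-- the action of a tree automorphism and a vertical translation on the vertices -/
def tr (σ : Vt ≃ Vt) (s : ℤ) : Vx ≃ Vx where
  toFun x := (σ x.1, x.2 + s)
  invFun x := (σ.symm x.1, x.2 - s)
  left_inv x := by simp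
  right_inv x := by simp

/-- the action on edges -/
def te (σ : Vt ≃ Vt) (s : ℤ) (e : Ed) : Ed := (tr σ s e.1, e.2)

theorem te_inj (σ : Vt ≃ Vt) (s : ℤ) : Function.Injective (te σ s) := by
  intro e e' h
  unfold te at h
  have h1 := congrArg Prod.fst h
  have h2 := congrArg Prod.snd h
  exact Prod.ext ((tr σ s).injective h1) h2

theorem hd_te {σ : Vt ≃ Vt} (hσ : ∀ y, σ (par b y) = par b (σ y)) (s : ℤ) (e : Ed) :
    hd b (te σ s e) = tr σ s (hd b e) := by
  obtain ⟨⟨x, h⟩, c⟩ := e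
  cases c
  · simp [hd, te, tr, hσ]
  · simp [hd, te, tr]
    ring

theorem Cn_tr {σ : Vt ≃ Vt} (hσ : ∀ y, σ (par b y) = par b (σ y)) (s : ℤ) (ω : Cf) (W : Set Vx)
    (x y : Vx) :
    Cn b (fun e => ω (te σ s e)) W x y ↔ Cn b ω (tr σ s '' W) (tr σ s x) (tr σ s y) := by
  have key : og b (fun e => ω (te σ s e)) W = (og b ω (tr σ s '' W)).comap (tr σ s) := by
    ext u v
    simp only [SimpleGraph.comap_adj]
    constructor
    · rintro ⟨h0, h1, h2, c, h3⟩
      refine ⟨fun h => h0 ((tr σ s).injective h), ⟨u, h1, rfl⟩, ⟨v, h2, rfl⟩, c, ?_⟩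
      rcases h3 with ⟨h3, h4⟩ | ⟨h3, h4⟩
      · left
        exact ⟨by rw [← h3]; exact hd_te hσ s (u, c), h4⟩
      · right
        exact ⟨by rw [← h3]; exact hd_te hσ s (v, c), h4⟩
    · rintro ⟨h0, ⟨u', h1, hu⟩, ⟨v', h2, hv⟩, c, h3⟩
      have hu' := (tr σ s).injective hu
      have hv' := (tr σ s).injective hv
      subst hu' hv'
      refine ⟨fun h => h0 (by rw [h]), h1, h2, c, ?_⟩
      rcases h3 with ⟨h3, h4⟩ | ⟨h3, h4⟩
      · left
        have h5 : tr σ s (hd b (u', c)) = tr σ s v' := by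
          rw [← hd_te hσ s (u', c)]; exact h3
        exact ⟨(tr σ s).injective h5, h4⟩
      · right
        have h5 : tr σ s (hd b (v', c)) = tr σ s u' := by
          rw [← hd_te hσ s (v', c)]; exact h3
        exact ⟨(tr σ s).injective h5, h4⟩
  unfold Cn
  rw [key]
  exact (SimpleGraph.Iso.comap (tr σ s) (og b ω (tr σ s '' W))).reachable_iff.symm

theorem cl_tr {σ : Vt ≃ Vt} (hσ : ∀ y, σ (par b y) = par b (σ y)) (s : ℤ) (ω : Cf) (W : Set Vx)
    (x : Vx) :
    cl b ω (tr σ s '' W) (tr σ s x) = tr σ s '' cl b (fun e => ω (te σ s e)) W x := by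
  ext y
  constructor
  · intro h
    refine ⟨(tr σ s).symm y, ?_, by simp⟩
    refine (Cn_tr hσ s ω W x _).2 ?_
    rw [Equiv.apply_symm_apply]
    exact h
  · rintro ⟨y', h, rfl⟩
    exact (Cn_tr hσ s ω W x y').1 h

theorem clInf_tr {σ : Vt ≃ Vt} (hσ : ∀ y, σ (par b y) = par b (σ y)) (s : ℤ) (ω : Cf)
    (W : Set Vx) (x : Vx) :
    (cl b (fun e => ω (te σ s e)) W x).Infinite ↔ (cl b ω (tr σ s '' W) (tr σ s x)).Infinite := by
  rw [cl_tr hσ]
  exact (Set.infinite_image_iff (tr σ s).injective.injOn).symm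

theorem sh_eq (h : ℤ) (ω : Cf) : sh h ω = fun e => ω (te (Equiv.refl Vt) h e) := rfl

/-- shifting the height -/
theorem Cn_sh (h : ℤ) (ω : Cf) (W : Set Vx) (x y : Vx) :
    Cn b (sh h ω) W x y ↔ Cn b ω (tr (Equiv.refl Vt) h '' W) (x.1, x.2 + h) (y.1, y.2 + h) :=
  Cn_tr (σ := Equiv.refl Vt) (fun _ => rfl) h ω W x y

theorem iter_par_equiv {σ : Vt ≃ Vt} (hσ : ∀ y, σ (par b y) = par b (σ y)) (j : ℕ) (y : Vt) :
    σ ((par b)^[j] y) = (par b)^[j] (σ y) := by
  induction j generalizing y with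
  | zero => rfl
  | succ j ih => rw [Function.iterate_succ_apply, Function.iterate_succ_apply, ih, hσ]

theorem iter_par (j : ℕ) (y : Vt) : (par b)^[j] y = (y.1 + j, y.2 / b ^ j) := by
  induction j generalizing y with
  | zero => simp
  | succ j ih =>
    rw [Function.iterate_succ_apply, ih]
    unfold par
    simp only [Prod.mk.injEq]
    constructor
    · push_cast; ring
    · rw [Nat.div_div_eq_div_mul, pow_succ, mul_comm]

theorem tr_Blk {σ : Vt ≃ Vt} (hσ : ∀ y, σ (par b y) = par b (σ y)) (s : ℤ) (K R : ℕ) (z : Vt)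
    (h : ℤ) : tr σ s '' Blk b K R z h = Blk b K R (σ z) (h + s) := by
  ext y
  constructor
  · rintro ⟨y', ⟨⟨j, hj, hz⟩, h1, h2⟩, rfl⟩
    refine ⟨⟨j, hj, ?_⟩, ?_, ?_⟩
    · change (par b)^[j] (σ y'.1) = σ z
      rw [← iter_par_equiv hσ, hz]
    · change h + s - R ≤ y'.2 + s
      linarith
    · change y'.2 + s ≤ h + s + R
      linarith
  · rintro ⟨⟨j, hj, hz⟩, h1, h2⟩
    refine ⟨(tr σ s).symm y, ⟨⟨j, hj, ?_⟩, ?_, ?_⟩, by simp⟩
    · apply σ.injective
      rw [iter_par_equiv hσ]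
      change (par b)^[j] (σ (σ.symm y.1)) = σ z
      rw [Equiv.apply_symm_apply]; exact hz
    · change h - R ≤ y.2 - s
      linarith
    · change y.2 - s ≤ h + R
      linarith

end Pool.Agent.Helper98K9.CP
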