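import Pool.Agent.Helper98K9.CP.St

set_option autoImplicit false

/-! # Statements of the leaves, second part: assembly for the canopy tree, and the regular tree -/

namespace Pool.Agent.Helper98K9.CP

open MeasureTheory ProbabilityTheory Filter
open scoped ENNReal NNReal

/-- edges in the slab of heights `-R..R` with both ends in descendants of `z` -/
def dsl (b R : ℕ) (z : Vt) : Set Ed :=
  {e | e ∈ slab R ∧ ∃ j : ℕ, (par b)^[j] e.1.1 = z ∧ (e.2 = false → 1 ≤ j)}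

/-- a measurable relation on configurations, increasing and depending only on `D` -/
def NiceRel (D : Set Ed) (U : Set (Cf × Cf)) : Prop :=
  MeasurableSet U ∧ (∀ ξ : Cf, Inc {ξ' | (ξ, ξ') ∈ U}) ∧ (∀ ξ' : Cf, Inc {ξ | (ξ, ξ') ∈ U}) ∧
  ∀ ξ₁ ξ₂ η₁ η₂ : Cf, (∀ e ∈ D, ξ₁ e = η₁ e) → (∀ e ∈ D, ξ₂ e = η₂ e) →
    (ξ₁, ξ₂) ∈ U → (η₁, η₂) ∈ U

/-- the two slab configurations have at least `c * m ^ i` common vertices for infinitely many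
steps `i` -/
def RelI (b K R : ℕ) (c m : ℝ) (z : Vt) : Set (Cf × Cf) :=
  {q | ∃ᶠ i in atTop, q ∈ Rel b K R c m i z}

/-- [NICE] (from MEAS) -/
def S_NICE : Prop :=
  ∀ b : ℕ, 2 ≤ b → ∀ (K R : ℕ) (c m : ℝ) (z : Vt),
    (∀ i, NiceRel (dsl b R z) (Rel b K R c m i z)) ∧ NiceRel (dsl b R z) (RelI b K R c m z)

/-- [NGOOD] (Fubini) -/
def S_NGOOD : Prop :=
  ∀ (p : ℝ≥0) (hp : p ≤ 1) (a : ℝ) (D : Set Ed) (U : Set (Cf × Cf)), NiceRel D U →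
    MeasurableSet (Good p hp a U) ∧ Inc (Good p hp a U) ∧ Dep D (Good p hp a U)

/-- [SLABS] (from REIDX, IND) slabs are independent copies -/
def S_SLABS : Prop :=
  ∀ (R : ℕ) (p : ℝ≥0) (hp : p ≤ 1) (A : Set Cf), MeasurableSet A → Dep (slab R) A →
    ∀ (H : ℤ), 2 * (R : ℤ) + 1 ≤ H → ∀ Q : Finset ℤ,
      (PP Ed p hp).real {ω | ∀ q ∈ Q, sh (q * H) ω ∉ A} ≤ (1 - (PP Ed p hp).real A) ^ Q.card

/-- descendants of `z` of depth at most `n`, times the heights at least `lo` -/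
def Fz (b n : ℕ) (z : Vt) (lo : ℤ) : Set Vx :=
  {y | (∃ t ≤ n, (par b)^[t] y.1 = z) ∧ lo ≤ y.2}

/-- [RSC] (deterministic) reached vertices are connected to the root -/
def S_RSC : Prop :=
  ∀ (b K R : ℕ) (ω : Cf) (i : ℕ) (z w : Vt) (h lo : ℤ), lo ≤ h - R →
    w ∈ Rs b K R (sh h ω) i z → Cn b ω (Fz b ((K + 1) * i) z lo) (z, h) (w, h)

/-- [ANB] all good slabs of a window are connected (from THIRD, COL, RSC, NICE, NGOOD).
The constant `a` need not come from GW. -/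
def S_ANB : Prop :=
  ∀ b : ℕ, 2 ≤ b → ∀ (K R : ℕ) (p : ℝ≥0) (hp : p ≤ 1) (a c m : ℝ), 0 ≤ a → a ≤ 1 → 0 < c →
    0 < m → ∀ (i : ℕ) (z : Vt) (J : ℕ),
    (PP Ed p hp).real {ω | ∃ j j' : ℕ, 1 ≤ j ∧ j ≤ J ∧ 1 ≤ j' ∧ j' ≤ J ∧
      sh (j * (2 * R + 1)) ω ∈ Good p hp a (Rel b K R c m i z) ∧
      sh (j' * (2 * R + 1)) ω ∈ Good p hp a (Rel b K R c m i z) ∧
      ¬ Cn b ω (Fz b ((K + 1) * i) z 0) (z, j * (2 * R + 1)) (z, j' * (2 * R + 1))}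
      ≤ (J : ℝ) ^ 2 * (1 - a ^ 2) ^ (J - 2)
        + (J : ℝ) ^ 2 * (1 - (p : ℝ) ^ (J * (2 * R + 1))) ^ ⌈c * m ^ i⌉₊

/-- [SUM] (analysis) -/
def S_SUM : Prop :=
  ∀ (a c m P : ℝ) (H : ℕ), 0 < a → a ≤ 1 → 0 < c → 1 < m → 0 < P → P ≤ 1 → 1 ≤ H →
    ∃ M : ℕ, 1 ≤ M ∧ ∀ q : ℝ, 0 < q → q ≤ 1 →
      Summable (fun n : ℕ => (n : ℝ) ^ 2 * (1 - a ^ 2) ^ (n - 2)
        + (n : ℝ) ^ 2 * (1 - P ^ (n * H)) ^ ⌈c * m ^ (M * n)⌉₊ + (1 - q) ^ n)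

/-! ## the regular tree times `ℤ` or `ℕ` -/

/-- the regular tree times the set of heights `L` (`L = univ` or `L = Ici 0`) -/
def TW (L : Set ℤ) : Set Vx := {x | x.2 ∈ L}

/-- [GWI] (from GW, NICE) infinite version, reverse Fatou -/
def S_GWI : Prop :=
  ∀ b : ℕ, 2 ≤ b → ∀ (K R : ℕ) (p : ℝ≥0) (hp : p ≤ 1), 1 < mu b K R p hp →
    ∃ c : ℝ, 0 < c ∧ ∀ z : Vt,
      c ≤ ((PP Ed p hp).prod (PP Ed p hp)).real (RelI b K R c (mu b K R p hp) z)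

/-- [GINF] (deterministic, from RSC) a good slab gives an infinite cluster -/
def S_GINF : Prop :=
  ∀ (b K R : ℕ) (p : ℝ≥0) (hp : p ≤ 1) (a c m : ℝ), 2 ≤ b → 0 < a → 0 < c → 0 < m →
    ∀ (z : Vt) (h : ℤ) (ω : Cf), sh h ω ∈ Good p hp a (RelI b K R c m z) →
      (cl b ω {y : Vx | h - R ≤ y.2} (z, h)).Infinite

/-- [G1] (from THIRD, COL, RSC, NICE, NGOOD) two good slabs of the same tree vertex are
connected -/
def S_G1 : Prop :=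
  ∀ b : ℕ, 2 ≤ b → ∀ (K R : ℕ) (p : ℝ≥0) (hp : p ≤ 1) (a c m : ℝ), 0 < p → 0 < a → a ≤ 1 →
    0 < c → 1 < m → ∀ (z : Vt) (j j' : ℤ), j < j' →
    (PP Ed p hp).real {ω | sh (j * (2 * R + 1)) ω ∈ Good p hp a (RelI b K R c m z) ∧
      sh (j' * (2 * R + 1)) ω ∈ Good p hp a (RelI b K R c m z) ∧
      ¬ Cn b ω {y : Vx | j * (2 * R + 1) - R ≤ y.2}
        (z, j * (2 * R + 1)) (z, j' * (2 * R + 1))} = 0

/-- [G2] (from SLABS, HAR, NICE, NGOOD) a slab which is good for `z` and for its parent, with the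
edge between them open -/
def S_G2 : Prop :=
  ∀ b : ℕ, 2 ≤ b → ∀ (K R : ℕ) (p : ℝ≥0) (hp : p ≤ 1) (a c m : ℝ), 0 < p → 0 < a →
    ∀ (z : Vt), a ≤ (PP Ed p hp).real (Good p hp a (RelI b K R c m z)) →
    a ≤ (PP Ed p hp).real (Good p hp a (RelI b K R c m (par b z))) →
    (PP Ed p hp).real {ω | ¬ ∃ j : ℕ, 1 ≤ j ∧
      sh (j * (2 * R + 1)) ω ∈ Good p hp a (RelI b K R c m z) ∧
      sh (j * (2 * R + 1)) ω ∈ Good p hp a (RelI b K R c m (par b z)) ∧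
      ω ((z, j * (2 * R + 1)), false) = true} = 0

/-- [G3] (from G1, G2) all good points are connected -/
def S_G3 : Prop :=
  ∀ b : ℕ, 2 ≤ b → ∀ (K R : ℕ) (p : ℝ≥0) (hp : p ≤ 1) (a c m : ℝ), 0 < p → 0 < a → a ≤ 1 →
    0 < c → 1 < m → (∀ z, a ≤ (PP Ed p hp).real (Good p hp a (RelI b K R c m z))) →
    ∀ L : Set ℤ, (L = Set.univ ∨ L = Set.Ici 0) →
    (PP Ed p hp).real {ω | ∃ (z z' : Vt) (j j' : ℤ), j * (2 * R + 1) - R ∈ L ∧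
      j' * (2 * R + 1) - R ∈ L ∧
      sh (j * (2 * R + 1)) ω ∈ Good p hp a (RelI b K R c m z) ∧
      sh (j' * (2 * R + 1)) ω ∈ Good p hp a (RelI b K R c m z') ∧
      ¬ Cn b ω (TW L) (z, j * (2 * R + 1)) (z', j' * (2 * R + 1))} = 0

/-- [STRIP] (from SLABS with `R = 0`-like cuts, or IND) no infinite cluster in a finite strip -/
def S_STRIP : Prop :=
  ∀ (b : ℕ) (p : ℝ≥0) (hp : p ≤ 1), p < 1 → ∀ (B : Set Vt), B.Finite → ∀ x : Vx,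
    (PP Ed p hp).real {ω | (cl b ω {y : Vx | y.1 ∈ B} x).Infinite} = 0

/-- the finite subtree of the descendants of `(r, 0)` of level at least `-r` -/
def Br (b r : ℕ) : Set Vt := {y | ∃ j ≤ 2 * r, (par b)^[j] y = ((r : ℤ), 0)}

/-- edges touching `Br` -/
def Er (b r : ℕ) : Set Ed := {e | e.1.1 ∈ Br b r ∨ (hd b e).1 ∈ Br b r}

/-- good point `(z, j (2 R + 1))` connected to `x` in `TW L` -/
def ToGood (b K R : ℕ) (p : ℝ≥0) (hp : p ≤ 1) (a c m : ℝ) (L : Set ℤ) (x : Vx) (ω : Cf) : Prop :=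
  ∃ (z : Vt) (j : ℤ), j * (2 * R + 1) - R ∈ L ∧
    sh (j * (2 * R + 1)) ω ∈ Good p hp a (RelI b K R c m z) ∧
    Cn b ω (TW L) x (z, j * (2 * R + 1))

/-- the cluster of `x` leaves the strip `Br × L` -/
def Exits (b r : ℕ) (L : Set ℤ) (x : Vx) (ω : Cf) : Prop :=
  ∃ y w : Vx, Cn b ω {u : Vx | u.1 ∈ Br b r ∧ u.2 ∈ L} x y ∧ w.1 ∉ Br b r ∧ (og b ω (TW L)).Adj y w

/-- [EX1] (from HAR, IND, NICE, NGOOD) whatever is known on `Er`, an exit gives a connection to a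
good point with conditional probability bounded below -/
def S_EX1 : Prop :=
  ∀ b : ℕ, 2 ≤ b → ∀ (K R : ℕ) (p : ℝ≥0) (hp : p ≤ 1) (a c m : ℝ), 0 < p → 0 < a →
    (∀ z, a ≤ (PP Ed p hp).real (Good p hp a (RelI b K R c m z))) →
    ∀ L : Set ℤ, (L = Set.univ ∨ L = Set.Ici 0) → ∀ (r : ℕ) (x : Vx), x.1 ∈ Br b r →
    ∀ A : Set Cf, MeasurableSet A → Dep (Er b r) A →
      (p : ℝ) ^ (3 * R + 3) * a * (PP Ed p hp).real (A ∩ {ω | Exits b r L x ω})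
        ≤ (PP Ed p hp).real (A ∩ {ω | ToGood b K R p hp a c m L x ω})

/-- [EX2] (deterministic) an infinite cluster exits, unless there is one in the strip -/
def S_EX2 : Prop :=
  ∀ (b r : ℕ) (L : Set ℤ) (x : Vx) (ω : Cf), x.1 ∈ Br b r →
    (cl b ω (TW L) x).Infinite → ¬ (cl b ω {y : Vx | y.1 ∈ Br b r} x).Infinite →
    Exits b r L x ω

/-- [EX] (from EX1, EX2, STRIP, APX, MEAS) every infinite cluster contains a good point -/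
def S_EX : Prop :=
  ∀ b : ℕ, 2 ≤ b → ∀ (K R : ℕ) (p : ℝ≥0) (hp : p ≤ 1) (a c m : ℝ), 0 < p → p < 1 → 0 < a →
    (∀ z, a ≤ (PP Ed p hp).real (Good p hp a (RelI b K R c m z))) →
    ∀ L : Set ℤ, (L = Set.univ ∨ L = Set.Ici 0) → ∀ x : Vx,
      (PP Ed p hp).real {ω | (cl b ω (TW L) x).Infinite ∧
        ¬ ToGood b K R p hp a c m L x ω} = 0

/-- exactly one infinite cluster, almost surely -/
def Uniq (b : ℕ) (p : ℝ≥0) (hp : p ≤ 1) (W : Set Vx) : Prop :=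
  ∀ᵐ ω ∂(PP Ed p hp), (∃ x, (cl b ω W x).Infinite) ∧
    ∀ x y, (cl b ω W x).Infinite → (cl b ω W y).Infinite → Cn b ω W x y

/-- [UNI] (from GWI, GOODP, G3, EX, SLABS, GINF) -/
def S_UNI : Prop :=
  ∀ b : ℕ, 2 ≤ b → ∀ (K R : ℕ) (p : ℝ≥0) (hp : p ≤ 1), p < 1 → 1 < mu b K R p hp →
    ∀ L : Set ℤ, (L = Set.univ ∨ L = Set.Ici 0) → Uniq b p hp (TW L)

/-- [ONE] (all edges are open) -/
def S_ONE : Prop :=
  ∀ b : ℕ, 2 ≤ b → ∀ L : Set ℤ, (L = Set.univ ∨ L = Set.Ici 0) → Uniq b 1 le_rfl (TW L)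

/-- [CONV] (from HAR, AUT, REIDX, MEAS, continuity from below, CHAIN) uniqueness gives the
criterion -/
def S_CONV : Prop :=
  ∀ b : ℕ, 2 ≤ b → ∀ (p : ℝ≥0) (hp : p ≤ 1) (L : Set ℤ), (L = Set.univ ∨ L = Set.Ici 0) →
    Uniq b p hp (TW L) → ∃ K R, 1 < mu b K R p hp

end Pool.Agent.Helper98K9.CP
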