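import Pool.Agent.Helper98K9.CP.Fin1
import Pool.Agent.Helper30K9.CP.Caniso
import Pool.Agent.Helper80K9.CP.Piso

set_option autoImplicit false

/-! # Assembly for the canopy tree: all canopy trees -/

namespace Pool.Agent.Helper98K9.CP

open MeasureTheory ProbabilityTheory Filter Topology
open scoped ENNReal NNReal

/-- isomorphic factors give isomorphic products -/
def boxIso {V V' U : Type} {C : SimpleGraph V} {C' : SimpleGraph V'} (φ : C ≃g C')
    (H : SimpleGraph U) : C.boxProd H ≃g C'.boxProd H where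
  toEquiv := Equiv.prodCongr φ.toEquiv (Equiv.refl U)
  map_rel_iff' := by
    rintro ⟨x, u⟩ ⟨y, v⟩
    simp only [SimpleGraph.boxProd_adj, Equiv.prodCongr_apply, Prod.map_apply, Equiv.refl_apply]
    have h1 : C'.Adj (φ.toEquiv x) (φ.toEquiv y) ↔ C.Adj x y := φ.map_rel_iff'
    have h2 : φ.toEquiv x = φ.toEquiv y ↔ x = y := φ.toEquiv.injective.eq_iff
    rw [h1, h2]

/-- the model is a canopy tree -/
theorem isCanopy_canopy (d : ℕ) (hd : 3 ≤ d) : IsCanopy d (canopy d) (fun x => x.1) where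
  conn := by
    have hb : 2 ≤ d - 1 := by omega
    have key : ∀ (x : ℕ × ℕ) (j : ℕ),
        (canopy d).Reachable x (x.1 + j, x.2 / (d - 1) ^ j) := by
      intro x j
      induction j with
      | zero => simp
      | succ j ih =>
        refine ih.trans (SimpleGraph.Adj.reachable ?_)
        rw [TreeModel.canopy_adj]
        left
        rw [Nat.div_div_eq_div_mul, pow_succ]
        rfl
    have key2 : ∀ (x : ℕ × ℕ) (N : ℕ), x.1 + x.2 ≤ N → (canopy d).Reachable x (N, 0) := by
      intro x N hN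
      have h1 := key x (N - x.1)
      have h2 : x.2 / (d - 1) ^ (N - x.1) = 0 := by
        apply Nat.div_eq_of_lt
        have h3 : x.2 ≤ N - x.1 := by omega
        exact lt_of_le_of_lt h3 (Nat.lt_pow_self (by omega))
      rw [h2, show x.1 + (N - x.1) = N by omega] at h1
      exact h1
    have : Nonempty (ℕ × ℕ) := ⟨(0, 0)⟩
    refine SimpleGraph.Connected.mk fun x y => ?_
    exact (key2 x (max (x.1 + x.2) (y.1 + y.2)) (le_max_left _ _)).trans
      (key2 y (max (x.1 + x.2) (y.1 + y.2)) (le_max_right _ _)).symm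
  adj := by
    intro x y h
    rw [TreeModel.canopy_adj] at h
    rcases h with h | h
    · right; rw [h]
    · left; rw [h]
  parent := by
    intro x
    refine ⟨(x.1 + 1, x.2 / (d - 1)), ⟨?_, rfl⟩, ?_⟩
    · show (canopy d).Adj x _
      rw [TreeModel.canopy_adj]
      exact Or.inl rfl
    · rintro y ⟨h1, h2⟩
      rw [TreeModel.canopy_adj] at h1
      rcases h1 with h1 | h1
      · exact h1
      · exfalso
        have := congrArg Prod.fst h1
        simp only at this h2
        omega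
  children := by
    rintro ⟨k, m⟩ hk
    simp only at hk
    obtain ⟨k, rfl⟩ : ∃ k', k = k' + 1 := ⟨k - 1, by omega⟩
    have hb : 0 < d - 1 := by omega
    have : {y : ℕ × ℕ | (canopy d).Adj (k + 1, m) y ∧ y.1 + 1 = k + 1}
        = (fun j => (k, (d - 1) * m + j)) '' (Finset.range (d - 1) : Set ℕ) := by
      ext ⟨k', m'⟩
      simp only [Set.mem_ofPred_eq, Set.mem_image, Finset.coe_range, Set.mem_Iio, Prod.mk.injEq,
        TreeModel.canopy_adj]
      constructor
      · rintro ⟨h1, h2⟩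
        have hk' : k' = k := by omega
        subst hk'
        rcases h1 with ⟨h1, _⟩ | ⟨_, h1⟩
        · omega
        · refine ⟨m' % (d - 1), Nat.mod_lt _ hb, rfl, ?_⟩
          rw [h1]
          exact Nat.div_add_mod m' (d - 1)
      · rintro ⟨j, hj, rfl, rfl⟩
        refine ⟨Or.inr ⟨rfl, ?_⟩, rfl⟩
        rw [Nat.mul_add_div hb, Nat.div_eq_of_lt hj, add_zero]
    rw [this, Set.ncard_image_of_injective _ (by
      intro j j' h
      simp only [Prod.mk.injEq, true_and] at h
      omega), Set.ncard_coe_finset, Finset.card_range]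

/-- the final theorem -/
theorem final_all (hre : S_REIDX) (hhar : S_HAR) (hmeas : S_MEAS) (htau : S_TAU)
    (hfina : S_FINA) (hchain : S_CHAIN) (hmuc : S_MUC) (hcan : S_CAN) (hcaniso : S_CANISO)
    (hpiso : S_PISO) (hone : ∀ b : ℕ, 2 ≤ b → ∀ x ∈ WN,
      0 < (PP Ed 1 le_rfl).real {ω | (cl b ω WN x).Infinite})
    (d : ℕ) (hd : 3 ≤ d) (V : Type) (C : SimpleGraph V) (l : V → ℕ) (hC : IsCanopy d C l)
    (x : V × ℕ) :
    pc (C □ halfLine) x < 1 ∧ theta (C □ halfLine) x (pc (C □ halfLine) x) = 0 ∧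
      ∀ᵐ ω ∂(perc (C □ halfLine) (pc (C □ halfLine) x)),
        ∀ y, ¬ InfCl (C □ halfLine) ω y := by
  have hb : 2 ≤ d - 1 := by omega
  obtain ⟨φ⟩ := hcaniso d hd V C l hC
  have : Countable V := φ.toEquiv.injective.countable
  set ψ := boxIso φ halfLine with hψ
  have hth : ∀ (y : V × ℕ) (p : ℝ≥0),
      theta (C □ halfLine) y p = theta (canopy d □ halfLine) (ψ y) p :=
    (hpiso _ _ _ _ ψ).2
  have hpc : pc (C □ halfLine) x = pc (canopy d □ halfLine) (ψ x) := by
    unfold pc
    simp only [hth]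
  have h0 : ∀ y : V × ℕ, theta (C □ halfLine) y (pc (C □ halfLine) x) = 0 := by
    intro y
    rw [hth, hpc]
    exact final_canopy hre hhar hmeas htau hfina hchain hmuc hcan d hd (ψ x) (ψ y)
  refine ⟨?_, h0 x, ?_⟩
  · rw [hpc]
    have hE := emb_canopy d
    have hgW : ∀ x : (ℕ × ℕ) × ℕ, ((((x.1.1 : ℤ), x.1.2), (x.2 : ℤ)) : Vx) ∈ WN :=
      fun x => hE.rng ▸ ⟨x, rfl⟩
    obtain ⟨p', hp', hlt, hall⟩ := main_canopy hhar hmeas htau hfina hchain hmuc hcan (d - 1) hb
      1 le_rfl _ (hone (d - 1) hb _ (hgW (ψ x)))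
    refine lt_of_le_of_lt (csInf_le' ?_) hlt
    refine ⟨hp', ?_⟩
    rw [hE.theta_eq hre]
    have h2 := hall _ (hgW (ψ x))
    have h4 : PP Ed (min p' 1) (min_le_right p' 1) = PP Ed p' hp' := by
      congr 1
      exact min_eq_left hp'
    rw [h4]
    by_contra h5
    have h6 : PP Ed p' hp' {ω | (cl (d - 1) ω WN
        ((((ψ x).1.1 : ℤ), (ψ x).1.2), ((ψ x).2 : ℤ))).Infinite} = 0 :=
      nonpos_iff_eq_zero.1 (not_lt.1 h5)
    rw [Measure.real, h6] at h2
    simp at h2
  · rw [ae_all_iff]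
    intro y
    rw [ae_iff]
    simp only [not_not]
    exact h0 y

end Pool.Agent.Helper98K9.CP
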