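import Pool.Agent.Helper98K9.CP.Basic

set_option autoImplicit false

/-! # Measurability -/

namespace Pool.Agent.Helper98K9.CP

open MeasureTheory ProbabilityTheory
open scoped ENNReal NNReal

namespace MeasL

theorem meas_bit (e : Ed) : MeasurableSet {ω : Cf | ω e = true} := by
  have h : Measurable fun ω : Cf => ω e := measurable_pi_apply e
  exact h (measurableSet_singleton true)

theorem meas_adj (b : ℕ) (W : Set Vx) (x y : Vx) :
    MeasurableSet {ω : Cf | (og b ω W).Adj x y} := by
  have : {ω : Cf | (og b ω W).Adj x y} = {_ω : Cf | x ≠ y} ∩ ({_ω : Cf | x ∈ W} ∩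
      ({_ω : Cf | y ∈ W} ∩ ⋃ c : Bool, (({_ω : Cf | hd b (x, c) = y} ∩ {ω | ω (x, c) = true}) ∪
        ({_ω : Cf | hd b (y, c) = x} ∩ {ω | ω (y, c) = true})))) := by
    ext ω
    simp only [Set.mem_inter_iff, Set.mem_iUnion, Set.mem_union, Set.mem_ofPred_eq]
    rfl
  rw [this]
  exact (MeasurableSet.const _).inter ((MeasurableSet.const _).inter
    ((MeasurableSet.const _).inter (MeasurableSet.iUnion fun c =>
      ((MeasurableSet.const _).inter (meas_bit _)).union
        ((MeasurableSet.const _).inter (meas_bit _)))))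

/-- connected by `n` steps -/
def steps (b : ℕ) (ω : Cf) (W : Set Vx) : ℕ → Vx → Vx → Prop
  | 0, x, y => x = y
  | n + 1, x, y => ∃ z, steps b ω W n x z ∧ (og b ω W).Adj z y

theorem meas_steps (b : ℕ) (W : Set Vx) (n : ℕ) (x y : Vx) :
    MeasurableSet {ω : Cf | steps b ω W n x y} := by
  induction n generalizing y with
  | zero => exact MeasurableSet.const _
  | succ n ih =>
    have : {ω : Cf | steps b ω W (n + 1) x y}
        = ⋃ z, ({ω : Cf | steps b ω W n x z} ∩ {ω | (og b ω W).Adj z y}) := by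
      ext ω
      simp only [Set.mem_iUnion, Set.mem_inter_iff, Set.mem_ofPred_eq, steps]
    rw [this]
    exact MeasurableSet.iUnion fun z => (ih z).inter (meas_adj b W z y)

theorem cn_iff_steps (b : ℕ) (ω : Cf) (W : Set Vx) (x y : Vx) :
    Cn b ω W x y ↔ ∃ n, steps b ω W n x y := by
  constructor
  · intro h
    unfold Cn at h
    rw [SimpleGraph.reachable_iff_reflTransGen] at h
    induction h with
    | refl => exact ⟨0, rfl⟩
    | tail _ h ih =>
      obtain ⟨n, hn⟩ := ih
      exact ⟨n + 1, _, hn, h⟩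
  · rintro ⟨n, hn⟩
    induction n generalizing y with
    | zero => exact hn ▸ Cn.refl ω W x
    | succ n ih =>
      obtain ⟨z, h1, h2⟩ := hn
      exact (ih z h1).trans h2.reachable

end MeasL

open MeasL in
theorem meas : S_MEAS := by
  have h1 : ∀ (b : ℕ) (W : Set Vx) (x y : Vx), MeasurableSet {ω : Cf | Cn b ω W x y} := by
    intro b W x y
    have : {ω : Cf | Cn b ω W x y} = ⋃ n, {ω | steps b ω W n x y} := by
      ext ω
      simp only [Set.mem_iUnion, Set.mem_ofPred_eq]
      exact cn_iff_steps b ω W x y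
    rw [this]
    exact MeasurableSet.iUnion fun n => meas_steps b W n x y
  intro b W x y
  refine ⟨h1 b W x y, ?_⟩
  have : {ω : Cf | (cl b ω W x).Infinite}
      = ⋂ F : Finset Vx, ⋃ y : Vx, {ω | y ∉ F ∧ Cn b ω W x y} := by
    ext ω
    simp only [Set.mem_iInter, Set.mem_iUnion, Set.mem_ofPred_eq]
    constructor
    · intro h F
      obtain ⟨y, hy, hF⟩ := h.exists_notMem_finset F
      exact ⟨y, hF, hy⟩
    · intro h hfin
      obtain ⟨y, hy, hr⟩ := h hfin.toFinset
      exact hy (hfin.mem_toFinset.2 hr)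
  rw [this]
  refine MeasurableSet.iInter fun F => MeasurableSet.iUnion fun y => ?_
  by_cases hy : y ∈ F
  · simp [hy]
  · simpa [hy] using h1 b W x y

end Pool.Agent.Helper98K9.CP
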