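import Pool.Agent.Helper98K9.CP.Can
import Pool.Agent.Helper98K9.CP.Meas
import Pool.Agent.Helper98K9.CP.Fin2
import Pool.Agent.Helper10K9.CP.Prob
import Pool.Agent.Helper10K9.CP.Apx
import Pool.Agent.Helper10K9.CP.Tree
import Pool.Agent.Helper10K9.CP.Gw
import Pool.Agent.Helper10K9.CP.Fina
import Pool.Agent.Helper12K9.CP.Nice
import Pool.Agent.Helper30K9.CP.Caniso
import Pool.Agent.Helper30K9.CP.Tiso
import Pool.Agent.Helper36K9.CP.Aut
import Pool.Agent.Helper36K9.CP.Goodp
import Pool.Agent.Helper36K9.CP.Bk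
import Pool.Agent.Helper36K9.CP.Bk2
import Pool.Agent.Helper36K9.CP.Tau
import Pool.Agent.Helper36K9.CP.Uni
import Pool.Agent.Helper45K9.CP.Anb
import Pool.Agent.Helper45K9.CP.Bk3
import Pool.Agent.Helper45K9.CP.Third
import Pool.Agent.Helper45K9.CP.G1
import Pool.Agent.Helper45K9.CP.G2
import Pool.Agent.Helper56K9.CP.Bk1
import Pool.Agent.Helper56K9.CP.Col
import Pool.Agent.Helper56K9.CP.Conv
import Pool.Agent.Helper56K9.CP.Ex
import Pool.Agent.Helper56K9.CP.G3
import Pool.Agent.Helper56K9.CP.Muc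
import Pool.Agent.Helper56K9.CP.One
import Pool.Agent.Helper56K9.CP.Sum
import Pool.Agent.Helper80K9.CP.Chain
import Pool.Agent.Helper80K9.CP.Ex1
import Pool.Agent.Helper80K9.CP.Ex2
import Pool.Agent.Helper80K9.CP.Piso
import Pool.Agent.Helper80K9.CP.Strip

set_option autoImplicit false

/-! # All leaves together -/

namespace Pool.Agent.Helper98K9.CP

open MeasureTheory ProbabilityTheory Filter Topology
open scoped ENNReal NNReal

namespace AllL

open Pool.Agent.Helper56K9.CP (muc col bk1 sum one conv g3 ex ae_open)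
open Pool.Agent.Helper80K9.CP (chain ex1 ex2 piso strip)

theorem step' : S_STEP := step aut meas
theorem pair' : S_PAIR := pair aut meas
theorem gw' : S_GW := gw step' pair' meas
theorem col' : S_COL := col ind meas
theorem third' : S_THIRD := third reidx har
theorem nice' : S_NICE := nice meas
theorem slabs' : S_SLABS := slabs ind reidx
theorem anb' : S_ANB := anb third' col' rsc nice'
theorem chain' : S_CHAIN := chain har reidx meas
theorem bk' : S_BK := bk meas (bk1 ind meas) (bk2 reidx) bk3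
theorem tau' : S_TAU := tau reidx har meas bk'
theorem muc' : S_MUC := muc cont
theorem can' : S_CAN := can har goodp nice' ngood slabs' anb' sum gw'
theorem gwi' : S_GWI := gwi meas gw'
theorem g1' : S_G1 := g1 third' col' rsc nice'
theorem g2' : S_G2 := g2 slabs' har nice' ngood
theorem g3' : S_G3 := g3 g1' g2'
theorem ex1' : S_EX1 := ex1 ind har reidx meas nice' ngood
theorem ex' : S_EX := ex meas nice' ngood ex1' ex2 (strip ind) apx
theorem uni' : S_UNI := uni gwi' nice' ngood g3' ex' slabs' ginf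
theorem conv' : S_CONV := conv har aut reidx meas chain'

/-- percolation on canopy × ℕ at `p = 1` -/
theorem one_pos (b : ℕ) (hb : 2 ≤ b) (x : Vx) (hx : x ∈ WN) :
    0 < (PP Ed 1 le_rfl).real {ω | (cl b ω WN x).Infinite} := by
  have h1 : ∀ᵐ ω ∂(PP Ed 1 le_rfl), (cl b ω WN x).Infinite := by
    filter_upwards [ae_open] with ω hω
    have h2 : ω = fun _ => true := funext hω
    rw [h2]
    refine Set.infinite_of_injective_forall_mem (f := fun k : ℕ => ((((k : ℤ), 0), 0) : Vx)) ?_ ?_
    · intro k k' h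
      have := congrArg (fun y : Vx => y.1.1) h
      simpa using this
    · intro k
      exact FinL.conn_WN hb hx ⟨Int.natCast_nonneg _, le_rfl⟩
  have h2 : PP Ed 1 le_rfl {ω | (cl b ω WN x).Infinite} = 1 := by
    rw [measure_congr (Filter.eventuallyEq_univ.2 h1), measure_univ]
  rw [Measure.real, h2]
  simp

end AllL

open AllL in
/-- canopy tree times `ℕ` -/
theorem canopy_final (d : ℕ) (hd : 3 ≤ d) (V : Type) (C : SimpleGraph V) (l : V → ℕ)
    (hC : IsCanopy d C l) (x : V × ℕ) :
    pc (C.boxProd halfLine) x < 1 ∧ theta (C.boxProd halfLine) x (pc (C.boxProd halfLine) x) = 0 ∧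
      ∀ᵐ ω ∂(perc (C.boxProd halfLine) (pc (C.boxProd halfLine) x)),
        ∀ y, ¬ InfCl (C.boxProd halfLine) ω y :=
  final_all reidx har meas tau' fina chain' muc' can' caniso Pool.Agent.Helper80K9.CP.piso
    one_pos d hd V C l hC x

open AllL in
/-- uniqueness does not depend on the set of heights -/
theorem uniq_indep (b : ℕ) (hb : 2 ≤ b) (p : ℝ≥0) (hp : p ≤ 1) (L L' : Set ℤ)
    (hL : L = Set.univ ∨ L = Set.Ici 0) (hL' : L' = Set.univ ∨ L' = Set.Ici 0)
    (h : Uniq b p hp (TW L)) : Uniq b p hp (TW L') := by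
  rcases eq_or_lt_of_le hp with h1 | h1
  · subst h1
    exact Pool.Agent.Helper56K9.CP.one b hb L' hL'
  · obtain ⟨K, R, hmu⟩ := conv' b hb p hp L hL h
    exact uni' b hb K R p hp h1 hmu L' hL'

/-- uniqueness on (model of the regular tree) × `ℤ` and × `ℕ` -/
theorem uniq_model (d : ℕ) (hd : 3 ≤ d) (p : ℝ≥0) :
    (∀ᵐ ω ∂(perc ((tree d).boxProd line) p),
      ∃! C : (opn ((tree d).boxProd line) ω).ConnectedComponent, C.supp.Infinite) ↔
    ∀ᵐ ω ∂(perc ((tree d).boxProd halfLine) p),
      ∃! C : (opn ((tree d).boxProd halfLine) ω).ConnectedComponent, C.supp.Infinite := by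
  have hb : 2 ≤ d - 1 := by omega
  rw [(emb_treeZ d).uniq_iff reidx p, (emb_treeN d).uniq_iff reidx p]
  exact ⟨uniq_indep _ hb _ _ _ _ (Or.inl rfl) (Or.inr rfl),
    uniq_indep _ hb _ _ _ _ (Or.inr rfl) (Or.inl rfl)⟩

theorem pu_model (d : ℕ) (hd : 3 ≤ d) :
    pu ((tree d).boxProd line) = pu ((tree d).boxProd halfLine) := by
  unfold pu
  congr 1
  ext p
  simp only [Set.mem_ofPred_eq]
  exact and_congr_right fun _ => uniq_model d hd p

/-- the uniqueness thresholds of `T × ℤ` and `T × ℕ` agree -/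
theorem pu_final (d : ℕ) (hd : 3 ≤ d) (V : Type) (T : SimpleGraph V) (hT : T.IsTree)
    (hdeg : ∀ x, (T.neighborSet x).ncard = d) :
    pu (T.boxProd line) = pu (T.boxProd halfLine) := by
  obtain ⟨h1, h2⟩ := tree_leaf d hd
  obtain ⟨φ⟩ := tiso V (ℤ × ℕ) T (tree d) d (by omega) hT h1 hdeg h2
  have : Countable V := φ.toEquiv.injective.countable
  rw [(Pool.Agent.Helper80K9.CP.piso _ _ _ _ (boxIso φ line)).1,
    (Pool.Agent.Helper80K9.CP.piso _ _ _ _ (boxIso φ halfLine)).1]
  exact pu_model d hd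

end Pool.Agent.Helper98K9.CP
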