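import Pool.Agent.Helper98K9.CP.Basic
import Pool.Agent.Helper98K9.CP.St2
import Pool.Agent.Helper56K9.CP.Base

set_option autoImplicit false

/-! # The criterion gives percolation on canopy × ℕ -/

namespace Pool.Agent.Helper98K9.CP

open MeasureTheory ProbabilityTheory Filter
open scoped ENNReal NNReal

namespace CanL

variable (b K R : ℕ) (p : ℝ≥0) (hp : p ≤ 1) (a c m : ℝ) (M : ℕ)

/-- level of stage `n` -/
def lv (n : ℕ) : ℕ := (K + 1) * (M * n)

/-- root of stage `n` -/
def rt (n : ℕ) : Vt := ((lv K M n : ℕ), 1)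

/-- good slabs of stage `n` -/
def Gs (n : ℕ) : Set Cf := Good p hp a (Rel b K R c m (M * n) (rt K M n))

/-- the link edges at height `0` between the stages `n` and `n + 1` -/
def lk (n : ℕ) : Finset Ed :=
  {((rt K M n, 0), false), ((rt K M (n + 1), 0), false)} ∪
    (Finset.Ioc (lv K M n) (lv K M (n + 1))).image (fun k : ℕ => ((((k : ℤ), 0), 0), false))

/-- good for both stages, link open -/
def Bs (n : ℕ) : Set Cf :=
  (Gs b K R p hp a c m M n ∩ Gs b K R p hp a c m M (n + 1)) ∩ {ω | ∀ e ∈ lk K M n, ω e = true}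

theorem lk_card (n : ℕ) : (lk K M n).card ≤ (K + 1) * M + 2 := by
  unfold lk
  refine (Finset.card_union_le _ _).trans ?_
  have h1 : ({((rt K M n, (0 : ℤ)), false), ((rt K M (n + 1), 0), false)} : Finset Ed).card ≤ 2 :=
    Finset.card_le_two
  have h2 : ((Finset.Ioc (lv K M n) (lv K M (n + 1))).image
      (fun k : ℕ => (((((k : ℤ), 0) : Vt), (0 : ℤ)), false))).card ≤ (K + 1) * M := by
    refine Finset.card_image_le.trans ?_
    rw [Nat.card_Ioc]
    unfold lv
    have : (K + 1) * (M * (n + 1)) = (K + 1) * (M * n) + (K + 1) * M := by ring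
    omega
  omega

theorem link {b K M : ℕ} (hb : 2 ≤ b) {ω : Cf} {n : ℕ} {h : ℤ} (hh : 0 ≤ h)
    (hl : ∀ e ∈ lk K M n, ω ((e.1.1, e.1.2 + h), e.2) = true) :
    Cn b ω WN (rt K M n, h) (rt K M (n + 1), h) := by
  have hdiv : 1 / b = 0 := Nat.div_eq_of_lt (by omega)
  have e1 : Cn b ω WN (rt K M n, h) ((((lv K M n + 1 : ℕ) : ℤ), 0), h) := by
    have h1 := hl ((rt K M n, 0), false) (by simp [lk])
    simp only [zero_add] at h1
    have h2 : ((rt K M n, h), false) ∈ edg b WN := by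
      refine ⟨⟨?_, hh⟩, ?_, ?_⟩
      · exact Int.natCast_nonneg _
      · simp only [hd, par, rt]
        simp only [Bool.false_eq_true, if_false]
        positivity
      · simpa [hd] using hh
    have h3 := Cn.edge h2 h1
    have h4 : hd b ((rt K M n, h), false) = ((((lv K M n + 1 : ℕ) : ℤ), 0), h) := by
      simp [hd, par, rt, hdiv]
    rw [h4] at h3
    exact h3
  have e2 : Cn b ω WN (rt K M (n + 1), h) ((((lv K M (n + 1) + 1 : ℕ) : ℤ), 0), h) := by
    have h1 := hl ((rt K M (n + 1), 0), false) (by simp [lk])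
    simp only [zero_add] at h1
    have h2 : ((rt K M (n + 1), h), false) ∈ edg b WN := by
      refine ⟨⟨?_, hh⟩, ?_, ?_⟩
      · exact Int.natCast_nonneg _
      · simp only [hd, par, rt]
        simp only [Bool.false_eq_true, if_false]
        positivity
      · simpa [hd] using hh
    have h3 := Cn.edge h2 h1
    have h4 : hd b ((rt K M (n + 1), h), false)
        = ((((lv K M (n + 1) + 1 : ℕ) : ℤ), 0), h) := by
      simp [hd, par, rt, hdiv]
    rw [h4] at h3
    exact h3
  have e3 : ∀ j : ℕ, lv K M n + j ≤ lv K M (n + 1) →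
      Cn b ω WN ((((lv K M n + 1 : ℕ) : ℤ), 0), h) ((((lv K M n + j + 1 : ℕ) : ℤ), 0), h) := by
    intro j
    induction j with
    | zero => intro _; exact Cn.refl _ _ _
    | succ j ih =>
      intro hj
      refine (ih (by omega)).trans ?_
      have h1 := hl (((((lv K M n + j + 1 : ℕ) : ℤ), 0), 0), false) (by
        unfold lk
        apply Finset.mem_union_right
        rw [Finset.mem_image]
        exact ⟨lv K M n + j + 1, by rw [Finset.mem_Ioc]; omega, rfl⟩)
      simp only [zero_add] at h1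
      have h2 : (((((lv K M n + j + 1 : ℕ) : ℤ), 0), h), false) ∈ edg b WN := by
        refine ⟨⟨?_, hh⟩, ?_, ?_⟩
        · exact Int.natCast_nonneg _
        · simp only [hd, par]
          simp only [Bool.false_eq_true, if_false]
          positivity
        · simpa [hd] using hh
      have h3 := Cn.edge h2 h1
      have h4 : hd b (((((lv K M n + j + 1 : ℕ) : ℤ), 0), h), false)
          = ((((lv K M n + (j + 1) + 1 : ℕ) : ℤ), 0), h) := by
        simp [hd, par]
        ring
      rw [h4] at h3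
      exact h3
  have hle : lv K M n ≤ lv K M (n + 1) := by
    unfold lv
    have : (K + 1) * (M * (n + 1)) = (K + 1) * (M * n) + (K + 1) * M := by ring
    omega
  have h5 := e3 (lv K M (n + 1) - lv K M n) (by omega)
  have h6 : lv K M n + (lv K M (n + 1) - lv K M n) = lv K M (n + 1) := by omega
  rw [h6] at h5
  exact (e1.trans h5).trans e2.symm

end CanL

open CanL in
/-- [CAN] -/
theorem can (hhar : S_HAR) (hgoodp : S_GOODP) (hnice : S_NICE) (hngood : S_NGOOD)
    (hslabs : S_SLABS) (hanb : S_ANB) (hsum : S_SUM) (hgw : S_GW) : S_CAN := by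
  intro b hb K R p hp hmu
  obtain ⟨c, hc, hGW⟩ := hgw b hb K R p hp hmu
  set m : ℝ := mu b K R p hp with hm
  set a : ℝ := c / 2 with ha
  have ha0 : 0 < a := by positivity
  have hc1 : c ≤ 1 := (hGW 0 (0, 0)).trans measureReal_le_one
  have ha1 : a ≤ 1 := by linarith
  have hp0 : 0 < p := by
    rcases eq_or_lt_of_le (zero_le : (0 : ℝ≥0) ≤ p) with h | h
    · exfalso
      have h0 : (p : ℝ) = 0 := by rw [← h]; simp
      have h1 : m = 0 := by
        rw [hm]
        unfold mu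
        rw [h0]
        simp
      linarith
    · exact h
  have hp0' : (0 : ℝ) < p := by exact_mod_cast hp0
  have hp1' : (p : ℝ) ≤ 1 := by exact_mod_cast hp
  obtain ⟨M, hM, hS⟩ := hsum a c m p (2 * R + 1) ha0 ha1 hc hmu hp0' hp1' (by omega)
  set q : ℝ := a * a * (p : ℝ) ^ ((K + 1) * M + 2) with hq
  have hq0 : 0 < q := by positivity
  have hq1 : q ≤ 1 := by
    have h1 : a * a ≤ 1 := by nlinarith
    have h2 : (p : ℝ) ^ ((K + 1) * M + 2) ≤ 1 := pow_le_one₀ hp0'.le hp1'
    calc q ≤ 1 * 1 := mul_le_mul h1 h2 (by positivity) zero_le_one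
      _ = 1 := one_mul 1
  have hSq := hS q hq0 hq1
  -- probability of the good sets
  have hGm : ∀ n, MeasurableSet (Gs b K R p hp a c m M n) ∧
      a ≤ (PP Ed p hp).real (Gs b K R p hp a c m M n) ∧ Inc (Gs b K R p hp a c m M n) ∧
      Dep (slab R) (Gs b K R p hp a c m M n) := by
    intro n
    have h1 := (hnice b hb K R c m (rt K M n)).1 (M * n)
    have h2 := hngood p hp a _ _ h1
    have h3 := hgoodp p hp (Rel b K R c m (M * n) (rt K M n)) a ha0.le h1.1
      (by have := hGW (M * n) (rt K M n); rw [ha]; linarith)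
    refine ⟨h2.1, h3.2, h2.2.1, ?_⟩
    intro ω ω' h
    exact h2.2.2 ω ω' fun e he => h e he.1
  have hlkm : ∀ n, MeasurableSet {ω : Cf | ∀ e ∈ lk K M n, ω e = true} ∧
      Inc {ω : Cf | ∀ e ∈ lk K M n, ω e = true} ∧
      Dep (slab R) {ω : Cf | ∀ e ∈ lk K M n, ω e = true} := by
    intro n
    refine ⟨?_, ?_, ?_⟩
    · have : {ω : Cf | ∀ e ∈ lk K M n, ω e = true}
          = ⋂ e ∈ lk K M n, (fun ω : Cf => ω e) ⁻¹' {true} := by
        ext ω; simp
      rw [this]
      exact Finset.measurableSet_biInter _ fun e _ =>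
        (measurable_pi_apply e) (measurableSet_singleton _)
    · intro ω ω' h h' e he
      exact h e (h' e he)
    · intro ω ω' h h' e he
      rw [← h e ?_]
      · exact h' e he
      · unfold lk at he
        rw [Finset.mem_union, Finset.mem_insert, Finset.mem_singleton, Finset.mem_image] at he
        rcases he with (rfl | rfl) | ⟨k, _, rfl⟩
        · refine ⟨?_, ?_, ?_⟩ <;> simp
        · refine ⟨?_, ?_, ?_⟩ <;> simp
        · refine ⟨?_, ?_, ?_⟩ <;> simp
  have hB : ∀ n, MeasurableSet (Bs b K R p hp a c m M n) ∧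
      q ≤ (PP Ed p hp).real (Bs b K R p hp a c m M n) ∧
      Dep (slab R) (Bs b K R p hp a c m M n) := by
    intro n
    obtain ⟨g1, g2, g3, g4⟩ := hGm n
    obtain ⟨g1', g2', g3', g4'⟩ := hGm (n + 1)
    obtain ⟨l1, l2, l3⟩ := hlkm n
    refine ⟨(g1.inter g1').inter l1, ?_, ?_⟩
    · have h1 := hhar Ed p hp _ _ g1 g1' g3 g3'
      have h2 := hhar Ed p hp _ _ (g1.inter g1') l1
        (fun ω ω' h h' => ⟨g3 ω ω' h h'.1, g3' ω ω' h h'.2⟩) l2
      have h3 : (p : ℝ) ^ ((K + 1) * M + 2)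
          ≤ (PP Ed p hp).real {ω : Cf | ∀ e ∈ lk K M n, ω e = true} := by
        rw [Pool.Agent.Helper56K9.CP.all_open]
        exact pow_le_pow_of_le_one hp0'.le hp1' (lk_card K M n)
      refine le_trans ?_ h2
      rw [hq]
      refine mul_le_mul (le_trans ?_ h1) h3 (by positivity) measureReal_nonneg
      exact mul_le_mul g2 g2' ha0.le measureReal_nonneg
    · intro ω ω' h h'
      exact ⟨⟨g4 ω ω' h h'.1.1, g4' ω ω' h h'.1.2⟩, l3 ω ω' h h'.2⟩
  -- bad events
  set H : ℤ := 2 * (R : ℤ) + 1 with hH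
  let Abad : ℕ → Set Cf := fun n => {ω | ∃ j j' : ℕ, 1 ≤ j ∧ j ≤ n ∧ 1 ≤ j' ∧ j' ≤ n ∧
      sh (j * (2 * R + 1)) ω ∈ Good p hp a (Rel b K R c m (M * n) (rt K M n)) ∧
      sh (j' * (2 * R + 1)) ω ∈ Good p hp a (Rel b K R c m (M * n) (rt K M n)) ∧
      ¬ Cn b ω (Fz b ((K + 1) * (M * n)) (rt K M n) 0)
        (rt K M n, j * (2 * R + 1)) (rt K M n, j' * (2 * R + 1))}
  let Lbad : ℕ → Set Cf := fun n => {ω | ∀ j ∈ (Finset.Icc (1 : ℤ) n), sh (j * H) ω ∉
    Bs b K R p hp a c m M n}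
  have hA : ∀ n, (PP Ed p hp).real (Abad n) ≤ (n : ℝ) ^ 2 * (1 - a ^ 2) ^ (n - 2)
        + (n : ℝ) ^ 2 * (1 - (p : ℝ) ^ (n * (2 * R + 1))) ^ ⌈c * m ^ (M * n)⌉₊ := fun n =>
    hanb b hb K R p hp a c m ha0.le ha1 hc (by linarith) (M * n) (rt K M n) n
  have hL : ∀ n, (PP Ed p hp).real (Lbad n) ≤ (1 - q) ^ n := by
    intro n
    obtain ⟨b1, b2, b3⟩ := hB n
    have h1 := hslabs R p hp _ b1 b3 H (by rw [hH]) (Finset.Icc (1 : ℤ) n)
    have h2 : (Finset.Icc (1 : ℤ) n).card = n := by simp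
    rw [h2] at h1
    refine h1.trans (pow_le_pow_left₀ ?_ ?_ n)
    · have := measureReal_le_one (μ := PP Ed p hp) (s := Bs b K R p hp a c m M n)
      linarith
    · linarith
  set f : ℕ → ℝ := fun n => (n : ℝ) ^ 2 * (1 - a ^ 2) ^ (n - 2)
        + (n : ℝ) ^ 2 * (1 - (p : ℝ) ^ (n * (2 * R + 1))) ^ ⌈c * m ^ (M * n)⌉₊ + (1 - q) ^ n
    with hf
  have hf0 : ∀ n, 0 ≤ f n := by
    intro n
    have h1 : 0 ≤ 1 - a ^ 2 := by nlinarith
    have h2 : 0 ≤ 1 - (p : ℝ) ^ (n * (2 * R + 1)) := by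
      have := pow_le_one₀ (n := n * (2 * R + 1)) hp0'.le hp1'
      linarith
    have h3 : 0 ≤ 1 - q := by linarith
    rw [hf]
    positivity
  have hbad : ∀ n, PP Ed p hp (Abad n ∪ Lbad n) ≤ ENNReal.ofReal (f n) := by
    intro n
    have h1 : (PP Ed p hp).real (Abad n ∪ Lbad n) ≤ f n :=
      (measureReal_union_le _ _).trans (add_le_add (hA n) (hL n))
    rw [← ENNReal.ofReal_toReal (measure_ne_top (PP Ed p hp) (Abad n ∪ Lbad n))]
    exact ENNReal.ofReal_le_ofReal h1
  obtain ⟨n0, hn0, hn0s⟩ : ∃ n0 : ℕ, 1 ≤ n0 ∧ ∑' n, f (n + n0) < 1 := by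
    have h1 := tendsto_sum_nat_add f
    have h2 := (h1.eventually (gt_mem_nhds zero_lt_one)).and (eventually_ge_atTop 1)
    obtain ⟨n0, h3, h4⟩ := h2.exists
    exact ⟨n0, h4, h3⟩
  have hfs : Summable fun n => f (n + n0) := (summable_nat_add_iff n0).2 hSq
  have hU : PP Ed p hp (⋃ n, (Abad (n + n0) ∪ Lbad (n + n0))) < 1 := by
    refine (measure_iUnion_le _).trans_lt ?_
    refine (ENNReal.tsum_le_tsum fun n => hbad (n + n0)).trans_lt ?_
    rw [← ENNReal.ofReal_tsum_of_nonneg (fun n => hf0 (n + n0)) hfs]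
    rw [← ENNReal.ofReal_one]
    exact (ENNReal.ofReal_lt_ofReal_iff zero_lt_one).2 hn0s
  have hUc : 0 < PP Ed p hp (⋃ n, (Abad (n + n0) ∪ Lbad (n + n0)))ᶜ := by
    by_contra hcon
    have h0 : PP Ed p hp (⋃ n, (Abad (n + n0) ∪ Lbad (n + n0)))ᶜ = 0 :=
      nonpos_iff_eq_zero.1 (not_lt.1 hcon)
    have h1 : (1 : ℝ≥0∞) ≤ PP Ed p hp (⋃ n, (Abad (n + n0) ∪ Lbad (n + n0))) := by
      calc (1 : ℝ≥0∞) = PP Ed p hp Set.univ := measure_univ.symm
        _ = PP Ed p hp ((⋃ n, (Abad (n + n0) ∪ Lbad (n + n0)))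
            ∪ (⋃ n, (Abad (n + n0) ∪ Lbad (n + n0)))ᶜ) := by rw [Set.union_compl_self]
        _ ≤ _ := measure_union_le _ _
        _ = _ := by rw [h0, add_zero]
    exact absurd hU (not_lt.2 h1)
  have hsub : (⋃ n, (Abad (n + n0) ∪ Lbad (n + n0)))ᶜ
      ⊆ {ω : Cf | ∃ x : Vx, (cl b ω WN x).Infinite} := by
    intro ω hω
    rw [Set.mem_compl_iff, Set.mem_iUnion, not_exists] at hω
    have hgA : ∀ n, n0 ≤ n → ω ∉ Abad n := by
      intro n hn h
      apply hω (n - n0)
      rw [Nat.sub_add_cancel hn]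
      exact Or.inl h
    have hgL : ∀ n, n0 ≤ n → ∃ j : ℕ, 1 ≤ j ∧ j ≤ n ∧
        sh (j * (2 * R + 1)) ω ∈ Bs b K R p hp a c m M n := by
      intro n hn
      have h : ω ∉ Lbad n := by
        intro h
        apply hω (n - n0)
        rw [Nat.sub_add_cancel hn]
        exact Or.inr h
      simp only [Lbad, Set.mem_ofPred_eq, not_forall, not_not] at h
      obtain ⟨j, hj, hj2⟩ := h
      rw [Finset.mem_Icc] at hj
      refine ⟨j.toNat, by omega, by omega, ?_⟩
      have : ((j.toNat : ℕ) : ℤ) = j := Int.toNat_of_nonneg (by omega)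
      rw [this]
      exact hj2
    choose! J hJ1 hJ2 hJ3 using hgL
    have key : ∀ k : ℕ, Cn b ω WN (rt K M n0, J n0 * (2 * R + 1))
        (rt K M (n0 + k), J (n0 + k) * (2 * R + 1)) := by
      intro k
      induction k with
      | zero => exact Cn.refl _ _ _
      | succ k ih =>
        refine ih.trans ?_
        set n := n0 + k with hn
        have hn' : n0 + (k + 1) = n + 1 := by omega
        rw [hn']
        have hnn : n0 ≤ n := by omega
        have hb1 := hJ3 n hnn
        have hb2 := hJ3 (n + 1) (by omega)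
        have hlink : Cn b ω WN (rt K M n, J n * (2 * R + 1)) (rt K M (n + 1), J n * (2 * R + 1)) := by
          refine link hb (by positivity) ?_
          intro e he
          exact hb1.2 e he
        refine hlink.trans ?_
        have hA' := hgA (n + 1) (by omega)
        simp only [Abad, Set.mem_ofPred_eq, not_exists, not_and, not_not] at hA'
        have h7 := hA' (J n) (J (n + 1)) (hJ1 n hnn) ((hJ2 n hnn).trans (by omega))
          (hJ1 (n + 1) (by omega)) (hJ2 (n + 1) (by omega)) hb1.1.2 hb2.1.1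
        refine h7.mono ?_ fun _ _ h => h
        rintro y ⟨⟨t, ht, hy⟩, hy2⟩
        refine ⟨?_, hy2⟩
        rw [iter_par] at hy
        have h8 := congrArg Prod.fst hy
        simp only [rt, lv] at h8
        have h9 : (t : ℤ) ≤ ((K + 1) * (M * (n + 1)) : ℕ) := by exact_mod_cast ht
        linarith
    refine ⟨(rt K M n0, J n0 * (2 * R + 1)), ?_⟩
    refine Set.infinite_of_injective_forall_mem (f := fun k : ℕ =>
      ((rt K M (n0 + k), J (n0 + k) * (2 * R + 1)) : Vx)) ?_ key
    intro k k' hkk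
    have h1 := congrArg (fun x : Vx => x.1.1) hkk
    simp only [rt, lv] at h1
    have h2 : (K + 1) * (M * (n0 + k)) = (K + 1) * (M * (n0 + k')) := by exact_mod_cast h1
    have h3 := Nat.eq_of_mul_eq_mul_left (Nat.succ_pos K) h2
    have h4 := Nat.eq_of_mul_eq_mul_left (by omega : 0 < M) h3
    omega
  exact (ENNReal.toReal_pos (hUc.trans_le (measure_mono hsub)).ne' (measure_ne_top _ _))

end Pool.Agent.Helper98K9.CP
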