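import Mathlib

set_option autoImplicit false

/-!
# Percolation on `T × ℤ`, `T × ℕ` (`T` regular tree) and on `C × ℤ`, `C × ℕ` (`C` canopy tree)

Model.  The vertices of the tree are `ℤ × ℕ` (level, index); the parent of `(k, m)` is
`(k + 1, m / b)`.  Every vertex has one parent and `b` children, so this is the
`(b + 1)`-regular tree; the canopy tree is the part of level `≥ 0`.  The vertices of the product
are `Vx = (ℤ × ℕ) × ℤ` (tree vertex, height).  An edge is coded by its lower end and a bit: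
`(x, false)` is the tree edge from `x` to its parent (same height), `(x, true)` is the vertical
edge from `x` to the vertex just above.  A configuration is `E → Bool`.
-/

namespace Pool.Agent.Helper98K9.CP

open MeasureTheory ProbabilityTheory
open scoped ENNReal NNReal

/-- product Bernoulli(`p`) measure on `ι → Bool` -/
noncomputable def PP (ι : Type) (p : ℝ≥0) (hp : p ≤ 1) : Measure (ι → Bool) :=
  Measure.infinitePi fun _ : ι => (PMF.bernoulli p hp).toMeasure

instance (ι : Type) (p : ℝ≥0) (hp : p ≤ 1) : IsProbabilityMeasure (PP ι p hp) := by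
  unfold PP; infer_instance

/-- the event `A` depends only on the bits in `D` -/
def Dep {ι : Type} (D : Set ι) (A : Set (ι → Bool)) : Prop :=
  ∀ ω ω' : ι → Bool, (∀ e ∈ D, ω e = ω' e) → ω ∈ A → ω' ∈ A

/-- the event `A` is increasing -/
def Inc {ι : Type} (A : Set (ι → Bool)) : Prop :=
  ∀ ω ω' : ι → Bool, (∀ e, ω e = true → ω' e = true) → ω ∈ A → ω' ∈ A

/-- tree vertices: (level, index) -/
abbrev Vt : Type := ℤ × ℕ

/-- vertices of the product: (tree vertex, height) -/
abbrev Vx : Type := Vt × ℤ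

/-- edges: lower end and type (`false`: tree edge, `true`: vertical edge) -/
abbrev Ed : Type := Vx × Bool

/-- configurations -/
abbrev Cf : Type := Ed → Bool

/-- parent of a tree vertex -/
def par (b : ℕ) (x : Vt) : Vt := (x.1 + 1, x.2 / b)

/-- upper end of an edge -/
def hd (b : ℕ) (e : Ed) : Vx := if e.2 then (e.1.1, e.1.2 + 1) else (par b e.1.1, e.1.2)

/-- the open subgraph, restricted to the vertex set `W` -/
def og (b : ℕ) (ω : Cf) (W : Set Vx) : SimpleGraph Vx where
  Adj x y := x ≠ y ∧ x ∈ W ∧ y ∈ W ∧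
    ∃ c : Bool, (hd b (x, c) = y ∧ ω (x, c) = true) ∨ (hd b (y, c) = x ∧ ω (y, c) = true)
  symm := ⟨by
    rintro x y ⟨h0, h1, h2, c, h3⟩
    exact ⟨h0.symm, h2, h1, c, h3.symm⟩⟩
  loopless := ⟨fun x h => h.1 rfl⟩

/-- `x` and `y` are connected by an open path inside `W` -/
def Cn (b : ℕ) (ω : Cf) (W : Set Vx) (x y : Vx) : Prop := (og b ω W).Reachable x y

/-- the open cluster of `x` inside `W` -/
def cl (b : ℕ) (ω : Cf) (W : Set Vx) (x : Vx) : Set Vx := {y | Cn b ω W x y}

/-- edges with both ends in `W` -/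
def edg (b : ℕ) (W : Set Vx) : Set Ed := {e | e.1 ∈ W ∧ hd b e ∈ W}

/-- descendants of `z` of depth at most `K`, times the heights between `h - R` and `h + R` -/
def Blk (b K R : ℕ) (z : Vt) (h : ℤ) : Set Vx :=
  {y | (∃ j ≤ K, (par b)^[j] y.1 = z) ∧ h - R ≤ y.2 ∧ y.2 ≤ h + R}

/-- translation of a configuration by the height `h` -/
def sh (h : ℤ) (ω : Cf) : Cf := fun e => ω ((e.1.1, e.1.2 + h), e.2)

/-- step event: `w` (at depth `K + 1` below `z`) is reached from `z`: `(z, 0)` is connected to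
`(parent of w, 0)` inside the block of `z`, and the edge from `w` to its parent is open -/
def St (b K R : ℕ) (ξ : Cf) (z w : Vt) : Prop :=
  Cn b ξ (Blk b K R z 0) (z, 0) (par b w, 0) ∧ ξ ((w, 0), false) = true

/-- the vertices at depth `(K + 1) * i` below `z` that are reached from `z` in `i` steps -/
def Rs (b K R : ℕ) (ξ : Cf) (i : ℕ) (z : Vt) : Set Vt :=
  {w | (par b)^[(K + 1) * i] w = z ∧
    ∀ t < i, St b K R ξ ((par b)^[(K + 1) * (t + 1)] w) ((par b)^[(K + 1) * t] w)}

/-- probability of crossing a block -/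
noncomputable def piKR (b K R : ℕ) (p : ℝ≥0) (hp : p ≤ 1) : ℝ :=
  (PP Ed p hp).real {ω | Cn b ω (Blk b K R ((K : ℤ), 0) 0) (((K : ℤ), 0), 0) ((0, 0), 0)}

/-- mean number of common vertices reached in one step -/
noncomputable def mu (b K R : ℕ) (p : ℝ≥0) (hp : p ≤ 1) : ℝ :=
  (b : ℝ) ^ (K + 1) * ((p : ℝ) * piKR b K R p hp) ^ 2

/-- the two slab configurations have at least `c * μ ^ i` common reached vertices at step `i` -/
def Rel (b K R : ℕ) (c m : ℝ) (i : ℕ) (z : Vt) : Set (Cf × Cf) :=
  {q | c * m ^ i ≤ ((Rs b K R q.1 i z ∩ Rs b K R q.2 i z).ncard : ℝ)}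

/-- the edges with both ends at height between `-R` and `R` -/
def slab (R : ℕ) : Set Ed :=
  {e | -(R : ℤ) ≤ e.1.2 ∧ e.1.2 ≤ R ∧ (e.2 = true → e.1.2 + 1 ≤ R)}

/-- slab configurations that are related to a typical one with probability at least `a` -/
def Good (p : ℝ≥0) (hp : p ≤ 1) (a : ℝ) (U : Set (Cf × Cf)) : Set Cf :=
  {ξ | a ≤ (PP Ed p hp).real {ξ' | (ξ, ξ') ∈ U}}

/-- the vertical column of `w` is open between the heights `h` and `h'` (`h ≤ h'`) -/
def Col (ω : Cf) (w : Vt) (h h' : ℤ) : Prop := ∀ t : ℤ, h ≤ t → t < h' → ω ((w, t), true) = true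

end Pool.Agent.Helper98K9.CP
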