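import Mathlib

set_option autoImplicit false

/-!
# Bernoulli bond percolation on graphs: definitions

`G.edgeSet → Bool` is the set of configurations on the graph `G` (`true` = open).
-/

namespace Pool.Agent.Helper98K9.CP

open MeasureTheory ProbabilityTheory
open scoped ENNReal NNReal

/-- Bernoulli bond percolation on `G`: every edge is open with probability `min p 1`,
independently. -/
noncomputable def perc {V : Type} (G : SimpleGraph V) (p : ℝ≥0) : Measure (G.edgeSet → Bool) :=
  Measure.infinitePi fun _ => (PMF.bernoulli (min p 1) (min_le_right p 1)).toMeasure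

instance {V : Type} (G : SimpleGraph V) (p : ℝ≥0) : IsProbabilityMeasure (perc G p) := by
  unfold perc; infer_instance

/-- The graph of the open edges. -/
def opn {V : Type} (G : SimpleGraph V) (ω : G.edgeSet → Bool) : SimpleGraph V where
  Adj x y := ∃ h : G.Adj x y, ω ⟨s(x, y), h⟩ = true
  symm := ⟨by
    rintro x y ⟨h, ho⟩
    refine ⟨h.symm, ?_⟩
    have : (⟨s(y, x), h.symm⟩ : G.edgeSet) = ⟨s(x, y), h⟩ := Subtype.ext Sym2.eq_swap
    rw [this]; exact ho⟩
  loopless := ⟨fun x h => G.loopless.irrefl x h.1⟩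

/-- The open cluster of `x` is infinite. -/
def InfCl {V : Type} (G : SimpleGraph V) (ω : G.edgeSet → Bool) (x : V) : Prop :=
  {y | (opn G ω).Reachable x y}.Infinite

/-- `θ_x(p)`: the probability that `x` lies in an infinite open cluster. -/
noncomputable def theta {V : Type} (G : SimpleGraph V) (x : V) (p : ℝ≥0) : ℝ≥0∞ :=
  perc G p {ω | InfCl G ω x}

/-- The critical value `p_c = inf {p : θ_x(p) > 0}`, computed at the vertex `x`. -/
noncomputable def pc {V : Type} (G : SimpleGraph V) (x : V) : ℝ≥0 :=
  sInf {p : ℝ≥0 | p ≤ 1 ∧ 0 < theta G x p}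

/-- The uniqueness threshold
`p_u = inf {p ∈ [0, 1] : there is almost surely exactly one infinite open cluster}`. -/
noncomputable def pu {V : Type} (G : SimpleGraph V) : ℝ≥0 :=
  sInf {p : ℝ≥0 | p ≤ 1 ∧
    ∀ᵐ ω ∂(perc G p), ∃! C : (opn G ω).ConnectedComponent, C.supp.Infinite}

/-- The half-line: the vertices are `0, 1, 2, …`, the edges `{n, n + 1}`. -/
def halfLine : SimpleGraph ℕ := SimpleGraph.fromRel (fun m n => n = m + 1)

/-- The line: the vertices are the integers, the edges `{n, n + 1}`. -/
def line : SimpleGraph ℤ := SimpleGraph.fromRel (fun m n => n = m + 1)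

/-- `ℓ` is the level function of the canopy tree `C` of degree `d`: neighbours have consecutive
levels, every vertex has exactly one parent (neighbour one level above), every vertex of level
`≥ 1` has exactly `d - 1` children (neighbours one level below), and `C` is connected. -/
structure IsCanopy (d : ℕ) {V : Type} (C : SimpleGraph V) (l : V → ℕ) : Prop where
  conn : C.Connected
  adj : ∀ x y, C.Adj x y → l x = l y + 1 ∨ l y = l x + 1
  parent : ∀ x, ∃! y, C.Adj x y ∧ l y = l x + 1
  children : ∀ x, 1 ≤ l x → {y | C.Adj x y ∧ l y + 1 = l x}.ncard = d - 1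

/-- model of the canopy tree: the vertex `(k, m)` has level `k` and parent `(k + 1, m / (d - 1))` -/
def canopy (d : ℕ) : SimpleGraph (ℕ × ℕ) :=
  SimpleGraph.fromRel (fun x y => y = (x.1 + 1, x.2 / (d - 1)))

/-- model of the `d`-regular tree: the parent of `(k, m)` is `(k + 1, m / (d - 1))` -/
def tree (d : ℕ) : SimpleGraph (ℤ × ℕ) :=
  SimpleGraph.fromRel (fun x y => y = (x.1 + 1, x.2 / (d - 1)))

/-- [TREE] -/
def S_TREE : Prop :=
  ∀ d : ℕ, 3 ≤ d → (tree d).IsTree ∧ ∀ x, ((tree d).neighborSet x).ncard = d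

/-- [TISO] two `d`-regular trees are isomorphic -/
def S_TISO : Prop :=
  ∀ (V V' : Type) (T : SimpleGraph V) (T' : SimpleGraph V') (d : ℕ), 1 ≤ d →
    T.IsTree → T'.IsTree → (∀ x, (T.neighborSet x).ncard = d) →
    (∀ x, (T'.neighborSet x).ncard = d) → Nonempty (T ≃g T')

/-- [CANISO] two canopy trees are isomorphic: the model -/
def S_CANISO : Prop :=
  ∀ d : ℕ, 3 ≤ d → ∀ (V : Type) (C : SimpleGraph V) (l : V → ℕ), IsCanopy d C l →
    Nonempty (C ≃g canopy d)

/-- [PISO] percolation on isomorphic graphs -/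
def S_PISO : Prop :=
  ∀ (V V' : Type) [Countable V] [Countable V'] (G : SimpleGraph V) (G' : SimpleGraph V')
    (φ : G ≃g G'), pu G = pu G' ∧ ∀ (x : V) (p : ℝ≥0), theta G x p = theta G' (φ x) p

end Pool.Agent.Helper98K9.CP
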