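import Pool.Agent.Helper98K9.CP.Basic
import Pool.Agent.Helper98K9.CP.St2
import Pool.Agent.Helper98K9.CP.Perc

set_option autoImplicit false

/-! # Transfer between percolation on a graph and the coded model -/

namespace Pool.Agent.Helper98K9.CP

open MeasureTheory ProbabilityTheory
open scoped ENNReal NNReal

/-! ## measurability for percolation on a countable graph -/

section Meas

variable {V : Type} (G : SimpleGraph V)

theorem measG_adj (x y : V) : MeasurableSet {ω : G.edgeSet → Bool | (opn G ω).Adj x y} := by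
  by_cases h : G.Adj x y
  · have : {ω : G.edgeSet → Bool | (opn G ω).Adj x y}
        = (fun ω : G.edgeSet → Bool => ω ⟨s(x, y), h⟩) ⁻¹' {true} := by
      ext ω
      exact ⟨fun h' => h'.2, fun h' => ⟨h, h'⟩⟩
    rw [this]
    exact (measurable_pi_apply _) (measurableSet_singleton _)
  · have : {ω : G.edgeSet → Bool | (opn G ω).Adj x y} = ∅ := by
      ext ω
      simp only [Set.mem_ofPred_eq, Set.mem_empty_iff_false, iff_false]
      exact fun h' => h h'.1
    rw [this]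
    exact MeasurableSet.empty

/-- connected by at most `n` steps -/
def stepsG (ω : G.edgeSet → Bool) : ℕ → V → V → Prop
  | 0, x, y => x = y
  | n + 1, x, y => ∃ z, stepsG ω n x z ∧ (opn G ω).Adj z y

theorem measG_steps [Countable V] (n : ℕ) (x y : V) :
    MeasurableSet {ω : G.edgeSet → Bool | stepsG G ω n x y} := by
  induction n generalizing y with
  | zero => exact MeasurableSet.const _
  | succ n ih =>
    have : {ω : G.edgeSet → Bool | stepsG G ω (n + 1) x y}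
        = ⋃ z, ({ω : G.edgeSet → Bool | stepsG G ω n x z} ∩ {ω | (opn G ω).Adj z y}) := by
      ext ω
      simp only [Set.mem_iUnion, Set.mem_inter_iff, Set.mem_ofPred_eq, stepsG]
    rw [this]
    exact MeasurableSet.iUnion fun z => (ih z).inter (measG_adj G z y)

theorem reach_iff_stepsG (ω : G.edgeSet → Bool) (x y : V) :
    (opn G ω).Reachable x y ↔ ∃ n, stepsG G ω n x y := by
  constructor
  · intro h
    rw [SimpleGraph.reachable_iff_reflTransGen] at h
    induction h with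
    | refl => exact ⟨0, rfl⟩
    | tail _ h ih =>
      obtain ⟨n, hn⟩ := ih
      exact ⟨n + 1, _, hn, h⟩
  · rintro ⟨n, hn⟩
    induction n generalizing y with
    | zero => exact hn ▸ SimpleGraph.Reachable.refl x
    | succ n ih =>
      obtain ⟨z, h1, h2⟩ := hn
      exact (ih z h1).trans h2.reachable

theorem measG_reach [Countable V] (x y : V) :
    MeasurableSet {ω : G.edgeSet → Bool | (opn G ω).Reachable x y} := by
  have : {ω : G.edgeSet → Bool | (opn G ω).Reachable x y} = ⋃ n, {ω | stepsG G ω n x y} := by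
    ext ω
    simp only [Set.mem_iUnion, Set.mem_ofPred_eq]
    exact reach_iff_stepsG G ω x y
  rw [this]
  exact MeasurableSet.iUnion fun n => measG_steps G n x y

theorem measG_inf [Countable V] (x : V) :
    MeasurableSet {ω : G.edgeSet → Bool | InfCl G ω x} := by
  have : {ω : G.edgeSet → Bool | InfCl G ω x}
      = ⋂ F : Finset V, ⋃ y : V, {ω | y ∉ F ∧ (opn G ω).Reachable x y} := by
    ext ω
    simp only [Set.mem_iInter, Set.mem_iUnion, Set.mem_ofPred_eq, InfCl]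
    constructor
    · intro h F
      obtain ⟨y, hy, hF⟩ := h.exists_notMem_finset F
      exact ⟨y, hF, hy⟩
    · intro h hfin
      obtain ⟨y, hy, hr⟩ := h hfin.toFinset
      exact hy (hfin.mem_toFinset.2 hr)
  rw [this]
  refine MeasurableSet.iInter fun F => MeasurableSet.iUnion fun y => ?_
  by_cases hy : y ∈ F
  · simp [hy]
  · simpa [hy] using measG_reach G x y

end Meas

theorem exUnique_iff {V : Type} (H : SimpleGraph V) :
    (∃! C : H.ConnectedComponent, C.supp.Infinite) ↔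
      (∃ x, {y | H.Reachable x y}.Infinite) ∧
      ∀ x y, {z | H.Reachable x z}.Infinite → {z | H.Reachable y z}.Infinite →
        H.Reachable x y := by
  have hs : ∀ x, (H.connectedComponentMk x).supp = {y | H.Reachable x y} := by
    intro x
    ext y
    rw [SimpleGraph.ConnectedComponent.mem_supp_iff, SimpleGraph.ConnectedComponent.eq]
    exact ⟨fun h => h.symm, fun h => h.symm⟩
  constructor
  · rintro ⟨C, hC, hu⟩
    refine ⟨?_, ?_⟩
    · induction C using SimpleGraph.ConnectedComponent.ind with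
      | _ x => exact ⟨x, by rw [← hs]; exact hC⟩
    · intro x y hx hy
      have h1 := hu (H.connectedComponentMk x) (by simp only [hs]; exact hx)
      have h2 := hu (H.connectedComponentMk y) (by simp only [hs]; exact hy)
      exact SimpleGraph.ConnectedComponent.exact (h1.trans h2.symm)
  · rintro ⟨⟨x, hx⟩, hu⟩
    refine ⟨H.connectedComponentMk x, by simp only [hs]; exact hx, ?_⟩
    intro C hC
    induction C using SimpleGraph.ConnectedComponent.ind with
    | _ y =>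
      simp only [hs] at hC
      exact SimpleGraph.ConnectedComponent.sound (hu y x hC hx)

/-! ## the transfer -/

/-- the graph `G` is the part of the coded product graph with the vertex set `W` -/
structure Emb (b : ℕ) {V : Type} (G : SimpleGraph V) (g : V → Vx) (W : Set Vx) : Prop where
  inj : Function.Injective g
  rng : Set.range g = W
  adj : ∀ x y, G.Adj x y ↔ ∃ c : Bool, hd b (g x, c) = g y ∨ hd b (g y, c) = g x

theorem hd_tot (b : ℕ) (e : Ed) : (hd b e).1.1 + (hd b e).2 = e.1.1.1 + e.1.2 + 1 := by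
  obtain ⟨⟨⟨k, m⟩, h⟩, c⟩ := e
  cases c <;> simp [hd, par] <;> ring

theorem hd_inj (b : ℕ) {e e' : Ed} (h : e.1 = e'.1) (h' : hd b e = hd b e') : e = e' := by
  obtain ⟨x, c⟩ := e
  obtain ⟨x', c'⟩ := e'
  simp only at h
  subst h
  have h2 := congrArg Prod.snd h'
  cases c <;> cases c' <;> simp [hd, par] at h2 ⊢

namespace Emb

variable {b : ℕ} {V : Type} {G : SimpleGraph V} {g : V → Vx} {W : Set Vx}

theorem code (h : Emb b G g W) (e : G.edgeSet) :
    ∃ E : Ed, ∃ x y : V, (e : Sym2 V) = s(x, y) ∧ E.1 = g x ∧ hd b E = g y := by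
  obtain ⟨e, he⟩ := e
  induction e using Sym2.ind with
  | _ x y =>
    obtain ⟨c, hc | hc⟩ := (h.adj x y).1 he
    · exact ⟨(g x, c), x, y, rfl, rfl, hc⟩
    · exact ⟨(g y, c), y, x, Sym2.eq_swap, rfl, hc⟩

/-- the code of an edge -/
noncomputable def phi (h : Emb b G g W) (e : G.edgeSet) : Ed := (h.code e).choose

theorem phi_inj (h : Emb b G g W) : Function.Injective h.phi := by
  intro e e' hee
  obtain ⟨x, y, h1, h2, h3⟩ := (h.code e).choose_spec
  obtain ⟨x', y', h1', h2', h3'⟩ := (h.code e').choose_spec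
  have hxx : g x = g x' := by rw [← h2, ← h2']; exact congrArg Prod.fst hee
  have hyy : g y = g y' := by rw [← h3, ← h3']; exact congrArg (hd b) hee
  apply Subtype.ext
  rw [h1, h1', h.inj hxx, h.inj hyy]

theorem phi_eq (h : Emb b G g W) {x y : V} (hxy : G.Adj x y) {c : Bool}
    (hc : hd b (g x, c) = g y) : h.phi ⟨s(x, y), hxy⟩ = (g x, c) := by
  obtain ⟨x', y', h1, h2, h3⟩ := (h.code ⟨s(x, y), hxy⟩).choose_spec
  change (h.phi ⟨s(x, y), hxy⟩).1 = g x' at h2
  change hd b (h.phi ⟨s(x, y), hxy⟩) = g y' at h3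
  simp only [Sym2.eq_iff] at h1
  rcases h1 with ⟨rfl, rfl⟩ | ⟨rfl, rfl⟩
  · exact hd_inj b h2 (h3.trans hc.symm)
  · exfalso
    have t1 := hd_tot b (h.phi ⟨s(x, y), hxy⟩)
    have t2 := hd_tot b (g x, c)
    rw [h2, h3] at t1
    rw [hc] at t2
    simp only at t2
    omega

/-- the configuration on `G` -/
noncomputable def cfg (h : Emb b G g W) (ω : Cf) : G.edgeSet → Bool := fun e => ω (h.phi e)

theorem adj_iff (h : Emb b G g W) (ω : Cf) (x y : V) :
    (opn G (h.cfg ω)).Adj x y ↔ (og b ω W).Adj (g x) (g y) := by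
  have hW : ∀ x, g x ∈ W := fun x => h.rng ▸ ⟨x, rfl⟩
  constructor
  · rintro ⟨hxy, ho⟩
    refine ⟨fun hh => hxy.ne (h.inj hh), hW x, hW y, ?_⟩
    obtain ⟨c, hc | hc⟩ := (h.adj x y).1 hxy
    · refine ⟨c, Or.inl ⟨hc, ?_⟩⟩
      rw [← h.phi_eq hxy hc]; exact ho
    · refine ⟨c, Or.inr ⟨hc, ?_⟩⟩
      rw [← h.phi_eq hxy.symm hc]
      have : (⟨s(y, x), hxy.symm⟩ : G.edgeSet) = ⟨s(x, y), hxy⟩ := Subtype.ext Sym2.eq_swap
      rw [this]; exact ho
  · rintro ⟨_, _, _, c, ⟨hc, ho⟩ | ⟨hc, ho⟩⟩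
    · have hxy : G.Adj x y := (h.adj x y).2 ⟨c, Or.inl hc⟩
      refine ⟨hxy, ?_⟩
      change ω (h.phi _) = true
      rw [h.phi_eq hxy hc]; exact ho
    · have hxy : G.Adj y x := (h.adj y x).2 ⟨c, Or.inl hc⟩
      refine SimpleGraph.Adj.symm (G := opn G (h.cfg ω)) ⟨hxy, ?_⟩
      change ω (h.phi _) = true
      rw [h.phi_eq hxy hc]; exact ho

theorem reach_iff (h : Emb b G g W) (ω : Cf) (x y : V) :
    (opn G (h.cfg ω)).Reachable x y ↔ Cn b ω W (g x) (g y) := by
  constructor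
  · intro hr
    rw [SimpleGraph.reachable_iff_reflTransGen] at hr
    induction hr with
    | refl => exact Cn.refl _ _ _
    | tail _ h2 ih => exact ih.trans ((h.adj_iff ω _ _).1 h2).reachable
  · intro hr
    unfold Cn at hr
    rw [SimpleGraph.reachable_iff_reflTransGen] at hr
    have key : ∀ v, Relation.ReflTransGen (og b ω W).Adj (g x) v →
        ∃ y, g y = v ∧ (opn G (h.cfg ω)).Reachable x y := by
      intro v hv
      induction hv with
      | refl => exact ⟨x, rfl, SimpleGraph.Reachable.refl x⟩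
      | tail _ h2 ih =>
        obtain ⟨y, rfl, hy⟩ := ih
        have hw := h2.2.2.1
        rw [← h.rng] at hw
        obtain ⟨w, rfl⟩ := hw
        exact ⟨w, rfl, hy.trans ((h.adj_iff ω _ _).2 h2).reachable⟩
    obtain ⟨y', h1, h2⟩ := key _ hr
    rw [← h.inj h1]; exact h2

theorem inf_iff (h : Emb b G g W) (ω : Cf) (x : V) :
    InfCl G (h.cfg ω) x ↔ (cl b ω W (g x)).Infinite := by
  have : cl b ω W (g x) = g '' {y | (opn G (h.cfg ω)).Reachable x y} := by
    ext v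
    constructor
    · intro hv
      have hvW : v ∈ W := mem_of_Cn (h.rng ▸ ⟨x, rfl⟩) hv
      rw [← h.rng] at hvW
      obtain ⟨y, rfl⟩ := hvW
      exact ⟨y, (h.reach_iff ω x y).2 hv, rfl⟩
    · rintro ⟨y, hy, rfl⟩
      exact (h.reach_iff ω x y).1 hy
  rw [this, Set.infinite_image_iff h.inj.injOn]
  rfl

theorem mp (h : Emb b G g W) (hre : S_REIDX) (p : ℝ≥0) :
    MeasurePreserving h.cfg (PP Ed (min p 1) (min_le_right p 1)) (perc G p) :=
  hre Ed G.edgeSet (min p 1) (min_le_right p 1) h.phi h.phi_inj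

theorem theta_eq [Countable V] (h : Emb b G g W) (hre : S_REIDX) (x : V) (p : ℝ≥0) :
    theta G x p = PP Ed (min p 1) (min_le_right p 1) {ω | (cl b ω W (g x)).Infinite} := by
  unfold theta
  rw [← (h.mp hre p).measure_preimage (measG_inf G x).nullMeasurableSet]
  congr 1
  ext ω
  exact h.inf_iff ω x

theorem uniq_iff [Countable V] (h : Emb b G g W) (hre : S_REIDX) (p : ℝ≥0) :
    (∀ᵐ ω ∂(perc G p), ∃! C : (opn G ω).ConnectedComponent, C.supp.Infinite) ↔
      Uniq b (min p 1) (min_le_right p 1) W := by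
  have hm : MeasurableSet {ω : G.edgeSet → Bool |
      ∃! C : (opn G ω).ConnectedComponent, C.supp.Infinite} := by
    have : {ω : G.edgeSet → Bool | ∃! C : (opn G ω).ConnectedComponent, C.supp.Infinite}
        = (⋃ x, {ω | InfCl G ω x}) ∩ ⋂ x, ⋂ y, ({ω | InfCl G ω x}ᶜ ∪ {ω | InfCl G ω y}ᶜ
          ∪ {ω | (opn G ω).Reachable x y}) := by
      ext ω
      simp only [Set.mem_ofPred_eq, exUnique_iff, Set.mem_inter_iff, Set.mem_iUnion,
        Set.mem_iInter, Set.mem_union, Set.mem_compl_iff, InfCl]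
      refine and_congr_right fun _ => forall_congr' fun x => forall_congr' fun y => ?_
      tauto
    rw [this]
    exact (MeasurableSet.iUnion fun x => measG_inf G x).inter
      (MeasurableSet.iInter fun x => MeasurableSet.iInter fun y =>
        ((measG_inf G x).compl.union (measG_inf G y).compl).union (measG_reach G x y))
  rw [← (h.mp hre p).map_eq, ae_map_iff (h.mp hre p).measurable.aemeasurable hm]
  unfold Uniq
  refine Filter.eventually_congr (Filter.Eventually.of_forall fun ω => ?_)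
  rw [exUnique_iff]
  have hW : ∀ x, g x ∈ W := fun x => h.rng ▸ ⟨x, rfl⟩
  constructor
  · rintro ⟨⟨x, hx⟩, hu⟩
    refine ⟨⟨g x, (h.inf_iff ω x).1 hx⟩, ?_⟩
    intro u v hu' hv'
    have hu1 := mem_of_infinite hu'
    have hv1 := mem_of_infinite hv'
    rw [← h.rng] at hu1 hv1
    obtain ⟨x', rfl⟩ := hu1
    obtain ⟨y', rfl⟩ := hv1
    exact (h.reach_iff ω x' y').1 (hu x' y' ((h.inf_iff ω x').2 hu') ((h.inf_iff ω y').2 hv'))
  · rintro ⟨⟨u, hu'⟩, hu⟩
    have hu1 := mem_of_infinite hu'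
    rw [← h.rng] at hu1
    obtain ⟨x, rfl⟩ := hu1
    refine ⟨⟨x, (h.inf_iff ω x).2 hu'⟩, ?_⟩
    intro x' y' hx hy
    exact (h.reach_iff ω x' y').2 (hu _ _ ((h.inf_iff ω x').1 hx) ((h.inf_iff ω y').1 hy))

end Emb

/-! ## the three product graphs -/

theorem emb_canopy (d : ℕ) :
    Emb (d - 1) (canopy d □ halfLine) (fun x : (ℕ × ℕ) × ℕ => (((x.1.1 : ℤ), x.1.2), (x.2 : ℤ)))
      WN where
  inj := by
    rintro ⟨⟨k, m⟩, h⟩ ⟨⟨k', m'⟩, h'⟩ hh
    simp only [Prod.mk.injEq, Nat.cast_inj] at hh ⊢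
    exact hh
  rng := by
    ext ⟨⟨k, m⟩, h⟩
    simp only [Set.mem_range, Prod.mk.injEq, Prod.exists, WN, Set.mem_ofPred_eq]
    constructor
    · rintro ⟨k', m', h', ⟨rfl, rfl⟩, rfl⟩
      exact ⟨Int.natCast_nonneg _, Int.natCast_nonneg _⟩
    · rintro ⟨h1, h2⟩
      exact ⟨k.toNat, m, h.toNat, ⟨Int.toNat_of_nonneg h1, rfl⟩, Int.toNat_of_nonneg h2⟩
  adj := by
    rintro ⟨⟨k, m⟩, h⟩ ⟨⟨k', m'⟩, h'⟩
    simp only [SimpleGraph.boxProd_adj, canopy, halfLine, SimpleGraph.fromRel_adj, hd, par,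
      Bool.exists_bool, Prod.mk.injEq, ne_eq]
    simp
    constructor
    · rintro (⟨⟨h1, h2⟩, h3⟩ | ⟨⟨h1, h2⟩, h3, h4⟩)
      · rcases h2 with ⟨h2, h4⟩ | ⟨h2, h4⟩
        · left; left; exact ⟨⟨by omega, h4.symm⟩, h3⟩
        · left; right; exact ⟨⟨by omega, h4.symm⟩, h3.symm⟩
      · rcases h2 with h2 | h2
        · right; left; exact ⟨⟨h3, h4⟩, by omega⟩
        · right; right; exact ⟨⟨h3.symm, h4.symm⟩, by omega⟩
    · rintro ((⟨⟨h1, h2⟩, h3⟩ | ⟨⟨h1, h2⟩, h3⟩) | (⟨⟨h1, h2⟩, h3⟩ | ⟨⟨h1, h2⟩, h3⟩))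
      · left; exact ⟨⟨by omega, Or.inl ⟨by omega, h2.symm⟩⟩, h3⟩
      · left; exact ⟨⟨by omega, Or.inr ⟨by omega, h2.symm⟩⟩, h3.symm⟩
      · right; exact ⟨⟨by omega, Or.inl (by omega)⟩, h1, h2⟩
      · right; exact ⟨⟨by omega, Or.inr (by omega)⟩, h1.symm, h2.symm⟩

theorem emb_treeN (d : ℕ) :
    Emb (d - 1) (tree d □ halfLine) (fun x : (ℤ × ℕ) × ℕ => (x.1, (x.2 : ℤ)))
      (TW (Set.Ici 0)) where
  inj := by
    rintro ⟨⟨k, m⟩, h⟩ ⟨⟨k', m'⟩, h'⟩ hh
    simp only [Prod.mk.injEq, Nat.cast_inj] at hh ⊢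
    exact hh
  rng := by
    ext ⟨⟨k, m⟩, h⟩
    simp only [Set.mem_range, Prod.mk.injEq, Prod.exists, TW, Set.mem_ofPred_eq, Set.mem_Ici]
    constructor
    · rintro ⟨k', m', h', ⟨rfl, rfl⟩, rfl⟩
      exact Int.natCast_nonneg _
    · intro h2
      exact ⟨k, m, h.toNat, ⟨rfl, rfl⟩, Int.toNat_of_nonneg h2⟩
  adj := by
    rintro ⟨⟨k, m⟩, h⟩ ⟨⟨k', m'⟩, h'⟩
    simp only [SimpleGraph.boxProd_adj, tree, halfLine, SimpleGraph.fromRel_adj, hd, par,
      Bool.exists_bool, Prod.mk.injEq, ne_eq]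
    simp
    constructor
    · rintro (⟨⟨h1, h2⟩, h3⟩ | ⟨⟨h1, h2⟩, h3, h4⟩)
      · rcases h2 with ⟨h2, h4⟩ | ⟨h2, h4⟩
        · left; left; exact ⟨⟨by omega, h4.symm⟩, h3⟩
        · left; right; exact ⟨⟨by omega, h4.symm⟩, h3.symm⟩
      · rcases h2 with h2 | h2
        · right; left; exact ⟨⟨h3, h4⟩, by omega⟩
        · right; right; exact ⟨⟨h3.symm, h4.symm⟩, by omega⟩
    · rintro ((⟨⟨h1, h2⟩, h3⟩ | ⟨⟨h1, h2⟩, h3⟩) | (⟨⟨h1, h2⟩, h3⟩ | ⟨⟨h1, h2⟩, h3⟩))
      · left; exact ⟨⟨by omega, Or.inl ⟨by omega, h2.symm⟩⟩, h3⟩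
      · left; exact ⟨⟨by omega, Or.inr ⟨by omega, h2.symm⟩⟩, h3.symm⟩
      · right; exact ⟨⟨by omega, Or.inl (by omega)⟩, h1, h2⟩
      · right; exact ⟨⟨by omega, Or.inr (by omega)⟩, h1.symm, h2.symm⟩

theorem emb_treeZ (d : ℕ) :
    Emb (d - 1) (tree d □ line) (fun x : (ℤ × ℕ) × ℤ => x) (TW Set.univ) where
  inj := fun _ _ h => h
  rng := by
    ext x
    simp [TW]
  adj := by
    rintro ⟨⟨k, m⟩, h⟩ ⟨⟨k', m'⟩, h'⟩
    simp only [SimpleGraph.boxProd_adj, tree, line, SimpleGraph.fromRel_adj, hd, par,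
      Bool.exists_bool, Prod.mk.injEq, ne_eq]
    simp
    constructor
    · rintro (⟨⟨h1, h2⟩, h3⟩ | ⟨⟨h1, h2⟩, h3, h4⟩)
      · rcases h2 with ⟨h2, h4⟩ | ⟨h2, h4⟩
        · left; left; exact ⟨⟨by omega, h4.symm⟩, h3⟩
        · left; right; exact ⟨⟨by omega, h4.symm⟩, h3.symm⟩
      · rcases h2 with h2 | h2
        · right; left; exact ⟨⟨h3, h4⟩, by omega⟩
        · right; right; exact ⟨⟨h3.symm, h4.symm⟩, by omega⟩
    · rintro ((⟨⟨h1, h2⟩, h3⟩ | ⟨⟨h1, h2⟩, h3⟩) | (⟨⟨h1, h2⟩, h3⟩ | ⟨⟨h1, h2⟩, h3⟩))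
      · left; exact ⟨⟨by omega, Or.inl ⟨by omega, h2.symm⟩⟩, h3⟩
      · left; exact ⟨⟨by omega, Or.inr ⟨by omega, h2.symm⟩⟩, h3.symm⟩
      · right; exact ⟨⟨by omega, Or.inl (by omega)⟩, h1, h2⟩
      · right; exact ⟨⟨by omega, Or.inr (by omega)⟩, h1.symm, h2.symm⟩

end Pool.Agent.Helper98K9.CP
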