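import Pool.Agent.Helper98K9.CP.Basic
import Pool.Agent.Helper98K9.CP.St2
import Pool.Agent.Helper98K9.CP.Trans
import Pool.Agent.Helper56K9.CP.Base

set_option autoImplicit false

/-! # Assembly for the canopy tree -/

namespace Pool.Agent.Helper98K9.CP

open MeasureTheory ProbabilityTheory Filter Topology
open scoped ENNReal NNReal

namespace FinL

/-- a connection uses finitely many open edges -/
theorem finite_open {b : ℕ} {ω : Cf} {W : Set Vx} {x y : Vx} (h : Cn b ω W x y) :
    ∃ D : Finset Ed, ∀ ω' : Cf, (∀ e ∈ D, ω' e = true) → Cn b ω' W x y := by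
  classical
  unfold Cn at h
  rw [SimpleGraph.reachable_iff_reflTransGen] at h
  induction h with
  | refl => exact ⟨∅, fun ω' _ => Cn.refl ω' W x⟩
  | @tail u v _ h2 ih =>
    obtain ⟨D, hD⟩ := ih
    obtain ⟨h0, h1, h2, c, h3⟩ := h2
    rcases h3 with ⟨h3, _⟩ | ⟨h3, _⟩
    · refine ⟨insert (u, c) D, fun ω' hω' => ?_⟩
      refine (hD ω' fun e he => hω' e (Finset.mem_insert_of_mem he)).trans ?_
      exact SimpleGraph.Adj.reachable
        ⟨h0, h1, h2, c, Or.inl ⟨h3, hω' _ (Finset.mem_insert_self _ _)⟩⟩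
    · refine ⟨insert (v, c) D, fun ω' hω' => ?_⟩
      refine (hD ω' fun e he => hω' e (Finset.mem_insert_of_mem he)).trans ?_
      exact SimpleGraph.Adj.reachable
        ⟨h0, h1, h2, c, Or.inr ⟨h3, hω' _ (Finset.mem_insert_self _ _)⟩⟩

theorem cl_congr {b : ℕ} {ω : Cf} {W : Set Vx} {x y : Vx} (h : Cn b ω W x y)
    (hy : (cl b ω W y).Infinite) : (cl b ω W x).Infinite :=
  hy.mono fun _ hz => h.trans hz

/-- positivity at one vertex gives positivity at the others -/
theorem pos_all (hhar : S_HAR) (hmeas : S_MEAS) {b : ℕ} {p : ℝ≥0} {hp : p ≤ 1} (hp0 : 0 < p)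
    {W : Set Vx} {x y : Vx} (hxy : Cn b (fun _ => true) W x y)
    (hy : 0 < (PP Ed p hp).real {ω | (cl b ω W y).Infinite}) :
    0 < (PP Ed p hp).real {ω | (cl b ω W x).Infinite} := by
  obtain ⟨D, hD⟩ := finite_open hxy
  have h1 : MeasurableSet {ω : Cf | ∀ e ∈ D, ω e = true} := by
    have : {ω : Cf | ∀ e ∈ D, ω e = true} = ⋂ e ∈ D, (fun ω : Cf => ω e) ⁻¹' {true} := by
      ext ω; simp
    rw [this]
    exact Finset.measurableSet_biInter _ fun e _ =>
      (measurable_pi_apply e) (measurableSet_singleton _)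
  have h2 := hhar Ed p hp _ _ h1 (hmeas b W y y).2 (fun ω ω' h h' e he => h e (h' e he))
    (inc_clInf W y)
  rw [Pool.Agent.Helper56K9.CP.all_open] at h2
  have h3 : 0 < (p : ℝ) ^ D.card := pow_pos (by exact_mod_cast hp0) _
  refine lt_of_lt_of_le (mul_pos h3 hy) (h2.trans (measureReal_mono ?_))
  rintro ω ⟨hω1, hω2⟩
  exact cl_congr (hD ω hω1) hω2

/-- some vertex has an infinite cluster with positive probability -/
theorem exists_pos {b : ℕ} {p : ℝ≥0} {hp : p ≤ 1} {W : Set Vx}
    (h : 0 < (PP Ed p hp).real {ω | ∃ x, (cl b ω W x).Infinite}) :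
    ∃ x, 0 < (PP Ed p hp).real {ω | (cl b ω W x).Infinite} := by
  by_contra hcon
  push Not at hcon
  have h0 : ∀ x, PP Ed p hp {ω | (cl b ω W x).Infinite} = 0 := by
    intro x
    have h1 := le_antisymm (hcon x) measureReal_nonneg
    exact (measureReal_eq_zero_iff (measure_ne_top _ _)).1 h1
  have h2 : PP Ed p hp {ω | ∃ x, (cl b ω W x).Infinite} = 0 := by
    have : {ω : Cf | ∃ x, (cl b ω W x).Infinite} = ⋃ x, {ω | (cl b ω W x).Infinite} := by
      ext ω; simp
    rw [this, measure_iUnion_null_iff]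
    exact h0
  rw [Measure.real, h2] at h
  simp at h

/-- no percolation at `p = 0` -/
theorem zero {b : ℕ} {W : Set Vx} (x : Vx) (hp : (0 : ℝ≥0) ≤ 1) :
    (PP Ed 0 hp).real {ω | (cl b ω W x).Infinite} = 0 := by
  have h0 : ∀ e : Ed, PP Ed 0 hp {ω | ω e = true} = 0 := by
    intro e
    have h1 := Pool.Agent.Helper56K9.CP.all_open Ed 0 hp {e}
    simp only [Finset.mem_singleton, forall_eq, Finset.card_singleton, pow_one,
      NNReal.coe_zero] at h1
    exact (measureReal_eq_zero_iff (measure_ne_top _ _)).1 h1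
  have h2 : PP Ed 0 hp (⋃ e : Ed, {ω | ω e = true}) = 0 := measure_iUnion_null h0
  rw [measureReal_eq_zero_iff (measure_ne_top _ _)]
  refine measure_mono_null ?_ h2
  intro ω hω
  by_contra hcon
  simp only [Set.mem_iUnion, Set.mem_ofPred_eq, not_exists] at hcon
  refine hω ((Set.finite_singleton x).subset ?_)
  intro y hy
  change Cn b ω W x y at hy
  unfold Cn at hy
  rw [SimpleGraph.reachable_iff_reflTransGen] at hy
  induction hy with
  | refl => rfl
  | tail _ h3 _ =>
    obtain ⟨_, _, _, c, h4⟩ := h3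
    rcases h4 with ⟨_, h4⟩ | ⟨_, h4⟩
    · exact absurd h4 (hcon _)
    · exact absurd h4 (hcon _)

/-- the all-open configuration connects `WN` -/
theorem conn_WN {b : ℕ} (hb : 2 ≤ b) {x y : Vx} (hx : x ∈ WN) (hy : y ∈ WN) :
    Cn b (fun _ => true) WN x y := by
  have hvert : ∀ (z : Vt) (n : ℕ), 0 ≤ z.1 → Cn b (fun _ => true) WN (z, 0) (z, (n : ℤ)) := by
    intro z n hz
    induction n with
    | zero => exact Cn.refl _ _ _
    | succ n ih =>
      refine ih.trans ?_
      have h2 : ((z, (n : ℤ)), true) ∈ edg b WN := by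
        refine ⟨⟨hz, Int.natCast_nonneg _⟩, ?_, ?_⟩
        · simpa [hd] using hz
        · simp only [hd, if_true]; positivity
      have h3 := Cn.edge (ω := fun _ => true) h2 rfl
      have h4 : hd b ((z, (n : ℤ)), true) = (z, ((n + 1 : ℕ) : ℤ)) := by
        simp [hd]
      rw [h4] at h3
      exact h3
  have htree : ∀ (z : Vt) (n : ℕ), 0 ≤ z.1 →
      Cn b (fun _ => true) WN (z, 0) ((par b)^[n] z, 0) := by
    intro z n hz
    induction n with
    | zero => exact Cn.refl _ _ _
    | succ n ih =>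
      rw [Function.iterate_succ_apply']
      refine ih.trans ?_
      have hz' : 0 ≤ ((par b)^[n] z).1 := by
        rw [iter_par]; simp only; positivity
      have h2 : (((par b)^[n] z, (0 : ℤ)), false) ∈ edg b WN := by
        refine ⟨⟨hz', le_rfl⟩, ?_, ?_⟩
        · simp only [hd, par, Bool.false_eq_true, if_false]; positivity
        · simp [hd]
      have h3 := Cn.edge (ω := fun _ => true) h2 rfl
      have h4 : hd b (((par b)^[n] z, (0 : ℤ)), false) = (par b ((par b)^[n] z), 0) := by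
        simp [hd]
      rw [h4] at h3
      exact h3
  have key : ∀ u : Vx, u ∈ WN → ∀ N : ℤ, u.1.1 + u.1.2 ≤ N →
      Cn b (fun _ => true) WN u ((N, 0), 0) := by
    rintro ⟨z, h⟩ ⟨hz, hh⟩ N hN
    simp only at hz hh hN
    have h1 := hvert z h.toNat hz
    rw [Int.toNat_of_nonneg hh] at h1
    refine h1.symm.trans ?_
    have h2 := htree z (N - z.1).toNat hz
    have h3 : (par b)^[(N - z.1).toNat] z = (N, 0) := by
      rw [iter_par]
      have h4 : ((N - z.1).toNat : ℤ) = N - z.1 := Int.toNat_of_nonneg (by omega)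
      refine Prod.ext ?_ ?_
      · simp only; omega
      · simp only
        apply Nat.div_eq_of_lt
        have h5 : z.2 ≤ (N - z.1).toNat := by omega
        exact lt_of_le_of_lt h5 (Nat.lt_pow_self (by omega))
    rw [h3] at h2
    exact h2
  set N : ℤ := max (x.1.1 + x.1.2) (y.1.1 + y.1.2) with hN
  exact (key x hx N (le_max_left _ _)).trans (key y hy N (le_max_right _ _)).symm

end FinL

open FinL in
/-- if canopy × ℕ percolates at `p` then it percolates at a smaller parameter -/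
theorem main_canopy (hhar : S_HAR) (hmeas : S_MEAS) (htau : S_TAU) (hfina : S_FINA)
    (hchain : S_CHAIN) (hmuc : S_MUC) (hcan : S_CAN) (b : ℕ) (hb : 2 ≤ b) (p : ℝ≥0) (hp : p ≤ 1)
    (x : Vx) (hx : 0 < (PP Ed p hp).real {ω | (cl b ω WN x).Infinite}) :
    ∃ (p' : ℝ≥0) (hp' : p' ≤ 1), p' < p ∧
      ∀ y ∈ WN, 0 < (PP Ed p' hp').real {ω | (cl b ω WN y).Infinite} := by
  have hp0 : 0 < p := by
    rcases eq_or_lt_of_le (zero_le : (0 : ℝ≥0) ≤ p) with h | h
    · exfalso
      subst h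
      rw [zero x hp] at hx
      exact lt_irrefl _ hx
    · exact h
  obtain ⟨a, n, hn, h1⟩ := htau b hb p hp hp0 x hx
  obtain ⟨M, R, hM, h2⟩ := hfina b hb p hp a n h1
  obtain ⟨K, hK⟩ := hchain b hb p hp hp0 M R a n hn hM h2
  -- a smaller parameter
  obtain ⟨q, hq, hqp, hqmu⟩ : ∃ (q : ℝ≥0) (hq : q ≤ 1), q < p ∧ 1 < mu b K R q hq := by
    have hcont := hmuc b K R
    let F : ℝ≥0 → {p : ℝ≥0 // p ≤ 1} := fun t => ⟨min t p, (min_le_right _ _).trans hp⟩
    have hF : Continuous F := by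
      refine Continuous.subtype_mk ?_ _
      exact continuous_id.min continuous_const
    have hG : Continuous fun t : ℝ≥0 => mu b K R (F t).1 (F t).2 := hcont.comp hF
    have hGp : 1 < (fun t : ℝ≥0 => mu b K R (F t).1 (F t).2) p := by
      simp only [F, min_self]; exact hK
    have hev : ∀ᶠ t in 𝓝 p, 1 < mu b K R (F t).1 (F t).2 :=
      (hG.continuousAt (x := p)).eventually (lt_mem_nhds hGp)
    have hne : (𝓝[<] p).NeBot := nhdsLT_neBot_of_exists_lt ⟨0, hp0⟩
    have hev2 : ∀ᶠ t in 𝓝[<] p, 1 < mu b K R (F t).1 (F t).2 := hev.filter_mono nhdsWithin_le_nhds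
    obtain ⟨t, ht1, ht2⟩ := (hev2.and self_mem_nhdsWithin).exists
    have ht3 : t < p := ht2
    refine ⟨(F t).1, (F t).2, ?_, ht1⟩
    simp only [F]
    exact lt_of_le_of_lt (min_le_left _ _) ht3
  have h3 := hcan b hb K R q hq hqmu
  obtain ⟨y0, hy0⟩ := exists_pos h3
  have hq0 : 0 < q := by
    rcases eq_or_lt_of_le (zero_le : (0 : ℝ≥0) ≤ q) with h | h
    · exfalso
      subst h
      rw [zero y0 hq] at hy0
      exact lt_irrefl _ hy0
    · exact h
  have hy0W : y0 ∈ WN := by
    by_contra hcon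
    have : {ω : Cf | (cl b ω WN y0).Infinite} = ∅ := by
      ext ω
      simp only [Set.mem_ofPred_eq, Set.mem_empty_iff_false, iff_false]
      exact fun h => hcon (mem_of_infinite h)
    rw [this] at hy0
    simp at hy0
  exact ⟨q, hq, hqp, fun y hy => pos_all hhar hmeas hq0 (conn_WN hb hy hy0W) hy0⟩

open FinL in
/-- the final theorem for a graph isomorphic to canopy × ℕ, in the model -/
theorem final_canopy (hre : S_REIDX) (hhar : S_HAR) (hmeas : S_MEAS) (htau : S_TAU)
    (hfina : S_FINA) (hchain : S_CHAIN) (hmuc : S_MUC) (hcan : S_CAN) (d : ℕ) (hd : 3 ≤ d)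
    (x y : (ℕ × ℕ) × ℕ) :
    theta (canopy d □ halfLine) y (pc (canopy d □ halfLine) x) = 0 := by
  have hb : 2 ≤ d - 1 := by omega
  have hE := emb_canopy d
  set g : (ℕ × ℕ) × ℕ → Vx := fun x => (((x.1.1 : ℤ), x.1.2), (x.2 : ℤ)) with hg
  have hgW : ∀ x, g x ∈ WN := fun x => hE.rng ▸ ⟨x, rfl⟩
  set P := pc (canopy d □ halfLine) x with hP
  by_contra hcon
  rw [hE.theta_eq hre y P] at hcon
  have h1 : 0 < (PP Ed (min P 1) (min_le_right P 1)).real {ω | (cl (d - 1) ω WN (g y)).Infinite} :=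
    ENNReal.toReal_pos hcon (measure_ne_top _ _)
  obtain ⟨p', hp', hlt, hall⟩ := main_canopy hhar hmeas htau hfina hchain hmuc hcan (d - 1) hb _ _ _ h1
  have h2 := hall (g x) (hgW x)
  have h3 : p' ∈ {p : ℝ≥0 | p ≤ 1 ∧ 0 < theta (canopy d □ halfLine) x p} := by
    refine ⟨hp', ?_⟩
    rw [hE.theta_eq hre x p']
    have hmin : min p' 1 = p' := min_eq_left hp'
    have h4 : PP Ed (min p' 1) (min_le_right p' 1) = PP Ed p' hp' := by
      congr 1
    rw [h4]
    by_contra h5
    have h6 : PP Ed p' hp' {ω | (cl (d - 1) ω WN (g x)).Infinite} = 0 :=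
      nonpos_iff_eq_zero.1 (not_lt.1 h5)
    rw [Measure.real, h6] at h2
    simp at h2
  have h4 : P ≤ p' := csInf_le' h3
  exact absurd (lt_of_lt_of_le hlt (min_le_left P 1)) (not_lt.2 h4)

end Pool.Agent.Helper98K9.CP
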