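import Pool.Agent.Helper98K9.CP.Defs

set_option autoImplicit false

/-! # Statements of the leaves -/

namespace Pool.Agent.Helper98K9.CP

open MeasureTheory ProbabilityTheory
open scoped ENNReal NNReal

/-! ## general probability -/

/-- [IND] independence of events depending on disjoint sets of bits -/
def S_IND : Prop :=
  ∀ (ι : Type) [Countable ι] (p : ℝ≥0) (hp : p ≤ 1) (D D' : Set ι) (A A' : Set (ι → Bool)),
    Disjoint D D' → Dep D A → Dep D' A' → MeasurableSet A → MeasurableSet A' →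
    (PP ι p hp).real (A ∩ A') = (PP ι p hp).real A * (PP ι p hp).real A'

/-- [REIDX] reindexing by an injective map -/
def S_REIDX : Prop :=
  ∀ (ι κ : Type) (p : ℝ≥0) (hp : p ≤ 1) (f : κ → ι), Function.Injective f →
    MeasurePreserving (fun (ω : ι → Bool) (k : κ) => ω (f k)) (PP ι p hp) (PP κ p hp)

/-- [HAR] Harris' inequality, real version (from `Pool.Agent.IIC.P_harris`) -/
def S_HAR : Prop :=
  ∀ (ι : Type) [Countable ι] (p : ℝ≥0) (hp : p ≤ 1) (A B : Set (ι → Bool)),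
    MeasurableSet A → MeasurableSet B → Inc A → Inc B →
    (PP ι p hp).real A * (PP ι p hp).real B ≤ (PP ι p hp).real (A ∩ B)

/-- [CONT] local events have continuous probability -/
def S_CONT : Prop :=
  ∀ (ι : Type) (D : Finset ι) (A : Set (ι → Bool)), Dep (D : Set ι) A →
    Continuous (fun p : {p : ℝ≥0 // p ≤ 1} => (PP ι p.1 p.2).real A)

/-- [APX] approximation of events by local events -/
def S_APX : Prop :=
  ∀ (ι : Type) [Countable ι] (p : ℝ≥0) (hp : p ≤ 1) (A : Set (ι → Bool)), MeasurableSet A →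
    ∀ ε : ℝ, 0 < ε → ∃ (D : Finset ι) (A' : Set (ι → Bool)), Dep (D : Set ι) A' ∧
      MeasurableSet A' ∧ (PP ι p hp).real (A \ A') ≤ ε ∧ (PP ι p hp).real (A' \ A) ≤ ε

/-- [GOODP] -/
def S_GOODP : Prop :=
  ∀ (p : ℝ≥0) (hp : p ≤ 1) (U : Set (Cf × Cf)) (a : ℝ), 0 ≤ a → MeasurableSet U →
    2 * a ≤ ((PP Ed p hp).prod (PP Ed p hp)).real U →
    MeasurableSet (Good p hp a U) ∧ a ≤ (PP Ed p hp).real (Good p hp a U)

/-- [THIRD] two good slabs are related to a common third slab -/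
def S_THIRD : Prop :=
  ∀ (R : ℕ) (p : ℝ≥0) (hp : p ≤ 1) (U : Set (Cf × Cf)) (a : ℝ), 0 ≤ a → a ≤ 1 →
    MeasurableSet U → (∀ ξ : Cf, Inc {ξ' | (ξ, ξ') ∈ U}) →
    (∀ ξ₁ ξ₂ η₁ η₂ : Cf, (∀ e ∈ slab R, ξ₁ e = η₁ e) → (∀ e ∈ slab R, ξ₂ e = η₂ e) →
      (ξ₁, ξ₂) ∈ U → (η₁, η₂) ∈ U) →
    ∀ (H : ℤ), 2 * (R : ℤ) + 1 ≤ H → ∀ (j j' : ℤ) (Q : Finset ℤ), j ≠ j' → j ∉ Q → j' ∉ Q →
      (PP Ed p hp).real {ω | sh (j * H) ω ∈ Good p hp a U ∧ sh (j' * H) ω ∈ Good p hp a U ∧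
        ∀ q ∈ Q, ¬ ((sh (j * H) ω, sh (q * H) ω) ∈ U ∧ (sh (j' * H) ω, sh (q * H) ω) ∈ U)}
        ≤ (1 - a ^ 2) ^ Q.card

/-! ## the tree and the percolation model -/

/-- [AUT] transitivity on vertices of the group of automorphisms preserving the parent map
(first shift the level, then add digits in base `b`) -/
def S_AUT : Prop :=
  ∀ b : ℕ, 2 ≤ b → ∀ u w : Vt, ∃ σ : Vt ≃ Vt, (∀ y, σ (par b y) = par b (σ y)) ∧ σ u = w ∧
    ∀ y, (σ y).1 = y.1 + (w.1 - u.1)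

/-- [MEAS] measurability -/
def S_MEAS : Prop :=
  ∀ (b : ℕ) (W : Set Vx) (x y : Vx), MeasurableSet {ω : Cf | Cn b ω W x y} ∧
    MeasurableSet {ω : Cf | (cl b ω W x).Infinite}

/-- [STEP] probability of reaching a given vertex in `i` steps -/
def S_STEP : Prop :=
  ∀ b : ℕ, 2 ≤ b → ∀ (K R : ℕ) (p : ℝ≥0) (hp : p ≤ 1) (i : ℕ) (z w : Vt),
    (par b)^[(K + 1) * i] w = z →
    (PP Ed p hp).real {ω | w ∈ Rs b K R ω i z} = ((p : ℝ) * piKR b K R p hp) ^ i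

/-- [PAIR] probability of reaching two given vertices which have different ancestors at depth
`(K + 1) * t` above them -/
def S_PAIR : Prop :=
  ∀ b : ℕ, 2 ≤ b → ∀ (K R : ℕ) (p : ℝ≥0) (hp : p ≤ 1) (i t : ℕ) (z w w' : Vt), t < i →
    (par b)^[(K + 1) * i] w = z → (par b)^[(K + 1) * i] w' = z →
    (par b)^[(K + 1) * t] w ≠ (par b)^[(K + 1) * t] w' →
    (PP Ed p hp).real {ω | w ∈ Rs b K R ω i z ∧ w' ∈ Rs b K R ω i z}
      ≤ ((p : ℝ) * piKR b K R p hp) ^ (i + t)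

/-- [GW] the number of common vertices of two independent slabs, second moment method -/
def S_GW : Prop :=
  ∀ b : ℕ, 2 ≤ b → ∀ (K R : ℕ) (p : ℝ≥0) (hp : p ≤ 1), 1 < mu b K R p hp →
    ∃ c : ℝ, 0 < c ∧ ∀ (i : ℕ) (z : Vt),
      c ≤ ((PP Ed p hp).prod (PP Ed p hp)).real (Rel b K R c (mu b K R p hp) i z)

/-- [COL] common vertices of two slabs give an open vertical column -/
def S_COL : Prop :=
  ∀ b : ℕ, 2 ≤ b → ∀ (K R : ℕ) (p : ℝ≥0) (hp : p ≤ 1) (i : ℕ) (z : Vt) (h h' : ℤ) (n : ℕ),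
    h + 2 * R + 1 ≤ h' →
    (PP Ed p hp).real {ω | n ≤ (Rs b K R (sh h ω) i z ∩ Rs b K R (sh h' ω) i z).ncard ∧
      ∀ w ∈ Rs b K R (sh h ω) i z ∩ Rs b K R (sh h' ω) i z, ¬ Col ω w h h'}
      ≤ (1 - (p : ℝ) ^ (h' - h).toNat) ^ n

/-- [CHAIN] long connections inside blocks from one connection with probability more than
`b ^ (-n/2)` -/
def S_CHAIN : Prop :=
  ∀ b : ℕ, 2 ≤ b → ∀ (p : ℝ≥0) (hp : p ≤ 1), 0 < p → ∀ (M R a n : ℕ), 1 ≤ n → a + n ≤ M →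
    1 < (b : ℝ) ^ n * ((PP Ed p hp).real {ω | Cn b ω (Blk b M R ((M : ℤ), 0) 0)
      (((a : ℤ), 0), 0) ((((a + n : ℕ) : ℤ), 0), 0)}) ^ 2 →
    ∃ K, 1 < mu b K R p hp

/-! ## Burton-Keane on the canopy tree times `ℤ` -/

/-- delete the vertices of `B` -/
def del {V : Type} (H : SimpleGraph V) (B : Set V) : SimpleGraph V where
  Adj x y := H.Adj x y ∧ x ∉ B ∧ y ∉ B
  symm := ⟨fun _ _ h => ⟨h.1.symm, h.2.2, h.2.1⟩⟩
  loopless := ⟨fun x h => H.loopless.irrefl x h.1⟩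

/-- keep only the edges inside `B` -/
def res {V : Type} (H : SimpleGraph V) (B : Set V) : SimpleGraph V where
  Adj x y := H.Adj x y ∧ x ∈ B ∧ y ∈ B
  symm := ⟨fun _ _ h => ⟨h.1.symm, h.2.2, h.2.1⟩⟩
  loopless := ⟨fun x h => H.loopless.irrefl x h.1⟩

/-- [BKDET] the number of trifurcation boxes is at most the number of exits -/
def S_BKDET : Prop :=
  ∀ (V : Type) (H : SimpleGraph V) (ι : Type) [Fintype ι] (B : ι → Set V) (Y : Finset V),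
    (∀ i j, i ≠ j → Disjoint (B i) (B j)) → (∀ i, (B i).Nonempty) →
    (∀ i, ∀ x ∈ B i, ∀ y ∈ B i, (res H (B i)).Reachable x y) →
    (∀ i, ∀ y ∈ Y, y ∉ B i) →
    (∀ i, ∃ y : Fin 3 → V, (∀ k, y k ∈ Y) ∧ (∀ k, ∃ x ∈ B i, H.Reachable x (y k)) ∧
      ∀ k l, k ≠ l → ¬ (del H (B i)).Reachable (y k) (y l)) →
    Fintype.card ι ≤ Y.card

/-- the canopy tree times `ℤ` -/
def WC : Set Vx := {x | 0 ≤ x.1.1}

/-- the canopy tree times `ℕ` -/
def WN : Set Vx := {x | 0 ≤ x.1.1 ∧ 0 ≤ x.2}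

/-- `B` is a trifurcation box in `W`: all edges inside `B` are open, and there are three
vertices, connected to `B` in `W`, with infinite and pairwise distinct clusters in `W \ B` -/
def Tri (b : ℕ) (W B : Set Vx) (ω : Cf) : Prop :=
  (∀ e ∈ edg b B, ω e = true) ∧
  ∃ x : Fin 3 → Vx, (∀ k, x k ∈ W \ B) ∧ (∀ k, ∃ y ∈ B, Cn b ω W y (x k)) ∧
    (∀ k, (cl b ω (W \ B) (x k)).Infinite) ∧ ∀ k l, k ≠ l → ¬ Cn b ω (W \ B) (x k) (x l)

/-- three distinct infinite clusters in `W` -/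
def Three (b : ℕ) (W : Set Vx) (ω : Cf) : Prop :=
  ∃ x : Fin 3 → Vx, (∀ k, (cl b ω W (x k)).Infinite) ∧ ∀ k l, k ≠ l → ¬ Cn b ω W (x k) (x l)

/-- [BK1] finite energy: three infinite clusters give a trifurcation box with positive
probability -/
def S_BK1 : Prop :=
  ∀ b : ℕ, 2 ≤ b → ∀ (p : ℝ≥0) (hp : p ≤ 1), 0 < p →
    0 < (PP Ed p hp).real {ω | Three b WC ω} →
    ∃ l : ℕ, 0 < (PP Ed p hp).real {ω | Tri b WC (Blk b l l ((l : ℤ), 0) 0) ω}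

/-- [BK2] invariance: the probability of being a trifurcation box -/
def S_BK2 : Prop :=
  ∀ b : ℕ, 2 ≤ b → ∀ (p : ℝ≥0) (hp : p ≤ 1) (l : ℕ) (z : Vt) (h : ℤ), z.1 = l →
    (PP Ed p hp).real {ω | Tri b WC (Blk b l l z h) ω}
      = (PP Ed p hp).real {ω | Tri b WC (Blk b l l ((l : ℤ), 0) 0) ω}

/-- [BK3] deterministic bound of the number of trifurcation boxes in the block of all
descendants of `(n, 0)` with the heights `0, ..., (2 l + 1) h - 1` (use `S_BKDET`; boxes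
`Blk b l l (l, m) (l + (2 l + 1) q)` with `m < b ^ (n - l)`, `q < h`; the exits are the vertices
outside that are adjacent to the block: there are at most `4 b ^ n + (2 l + 1) h` of them) -/
def S_BK3 : Prop :=
  ∀ b : ℕ, 2 ≤ b → ∀ (l n h : ℕ), l ≤ n → ∀ ω : Cf,
    ({q : ℕ × ℕ | q.1 < b ^ (n - l) ∧ q.2 < h ∧
      Tri b WC (Blk b l l ((l : ℤ), q.1) (l + (2 * l + 1) * q.2)) ω}).ncard
      ≤ 4 * b ^ n + (2 * l + 1) * h

/-- [BK] at most two infinite clusters in the canopy tree times `ℤ` -/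
def S_BK : Prop :=
  ∀ b : ℕ, 2 ≤ b → ∀ (p : ℝ≥0) (hp : p ≤ 1), 0 < p →
    (PP Ed p hp).real {ω | Three b WC ω} = 0

/-- [TAU] percolation on canopy × ℕ gives a long connection with probability bounded below -/
def S_TAU : Prop :=
  ∀ b : ℕ, 2 ≤ b → ∀ (p : ℝ≥0) (hp : p ≤ 1), 0 < p → ∀ x : Vx,
    0 < (PP Ed p hp).real {ω | (cl b ω WN x).Infinite} →
    ∃ a n : ℕ, 1 ≤ n ∧ 1 < (b : ℝ) ^ n * ((PP Ed p hp).real {ω | Cn b ω WC
      (((a : ℤ), 0), 0) ((((a + n : ℕ) : ℤ), 0), 0)}) ^ 2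

/-- [FINA] finite approximation of the connection -/
def S_FINA : Prop :=
  ∀ b : ℕ, 2 ≤ b → ∀ (p : ℝ≥0) (hp : p ≤ 1) (a n : ℕ),
    1 < (b : ℝ) ^ n * ((PP Ed p hp).real {ω | Cn b ω WC
      (((a : ℤ), 0), 0) ((((a + n : ℕ) : ℤ), 0), 0)}) ^ 2 →
    ∃ M R : ℕ, a + n ≤ M ∧ 1 < (b : ℝ) ^ n * ((PP Ed p hp).real
      {ω | Cn b ω (Blk b M R ((M : ℤ), 0) 0)
        (((a : ℤ), 0), 0) ((((a + n : ℕ) : ℤ), 0), 0)}) ^ 2

/-- [MUC] the condition `1 < μ` is open -/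
def S_MUC : Prop :=
  ∀ b : ℕ, ∀ K R : ℕ, Continuous (fun p : {p : ℝ≥0 // p ≤ 1} => mu b K R p.1 p.2)

/-- [CAN] the criterion gives percolation on canopy × ℕ -/
def S_CAN : Prop :=
  ∀ b : ℕ, 2 ≤ b → ∀ (K R : ℕ) (p : ℝ≥0) (hp : p ≤ 1), 1 < mu b K R p hp →
    0 < (PP Ed p hp).real {ω | ∃ x : Vx, (cl b ω WN x).Infinite}

end Pool.Agent.Helper98K9.CP
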